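import Mathlib

set_option autoImplicit false

namespace Pool.Agent.H477Z.Kel

/-- a clique of size 256 in the Keller graph of dimension 8, words written in base 4 -/
def clique : List ℕ := [
   80, 47440, 56912, 26448, 136, 47496, 56968, 26504, 104, 47464, 56936, 26472, 209, 47569,
   57041, 26577, 49, 47409, 56881, 26417, 233, 47593, 57065, 26601, 86, 47446, 56918, 26454,
   202, 47562, 57034, 26570, 122, 47482, 56954, 26490, 195, 47555, 57027, 26563, 115, 47475,
   56947, 26483, 239, 47599, 57071, 26607, 20488, 34824, 26632, 53512, 12552, 59656, 22024, 51720,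
   31240, 49928, 29448, 61192, 20657, 34993, 26801, 53681, 12721, 59825, 22193, 51889, 31409, 50097,
   29617, 61361, 20574, 34910, 26718, 53598, 12638, 59742, 22110, 51806, 31326, 50014, 29534, 61278,
   20711, 35047, 26855, 53735, 12775, 59879, 22247, 51943, 31463, 50151, 29671, 61415, 2176, 45440,
   24192, 59264, 2272, 45536, 24288, 59360, 2264, 45528, 24280, 59352, 2145, 45409, 24161, 59233,
   2137, 45401, 24153, 59225, 2105, 45369, 24121, 59193, 2114, 45378, 24130, 59202, 2290, 45554,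
   24306, 59378, 2262, 45526, 24278, 59350, 2123, 45387, 24139, 59211, 2299, 45563, 24315, 59387,
   2159, 45423, 24175, 59247, 32768, 57344, 55296, 24832, 22784, 14592, 16896, 61952, 54784, 19200,
   64256, 28416, 32953, 57529, 55481, 25017, 22969, 14777, 17081, 62137, 54969, 19385, 64441, 28601,
   32990, 57566, 55518, 25054, 23006, 14814, 17118, 62174, 55006, 19422, 64478, 28638, 32871, 57447,
   55399, 24935, 22887, 14695, 16999, 62055, 54887, 19303, 64359, 28519, 40092, 11420, 38300, 9628,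
   1692, 16028, 34716, 49052, 39980, 11308, 38188, 9516, 1580, 15916, 34604, 48940, 40085, 11413,
   38293, 9621, 1685, 16021, 34709, 49045, 39973, 11301, 38181, 9509, 1573, 15909, 34597, 48933,
   39942, 11270, 38150, 9478, 1542, 15878, 34566, 48902, 39998, 11326, 38206, 9534, 1598, 15934,
   34622, 48958, 40071, 11399, 38279, 9607, 1671, 16007, 34695, 49031, 40127, 11455, 38335, 9663,
   1727, 16063, 34751, 49087]

/-- the `j`-th letter of a word -/
def dig (w j : ℕ) : ℕ := w / 4 ^ j % 4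

/-- adjacency test -/
def chk (a b : ℕ) : Bool :=
  (List.range 8).any fun i => ((dig a i + 2) % 4 == dig b i) &&
    (List.range 8).any fun j => (i != j) && (dig a j != dig b j)

/-- pairwise test -/
def pw : List ℕ → Bool
  | [] => true
  | a :: l => l.all (chk a) && pw l

theorem pw_clique : pw clique = true := by decide +kernel

theorem clique_length : clique.length = 256 := by decide +kernel

theorem pairwise_of_pw (l : List ℕ) (h : pw l = true) : l.Pairwise fun a b => chk a b = true := by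
  induction l with
  | nil => exact List.Pairwise.nil
  | cons a l ih =>
    rw [pw, Bool.and_eq_true, List.all_eq_true] at h
    exact List.Pairwise.cons h.1 (ih h.2)

/-- the words of the clique -/
def word (a : Fin 256) (j : Fin 8) : ZMod 4 :=
  (dig (clique[(a : ℕ)]'(by rw [clique_length]; exact a.isLt)) j : ℕ)

theorem chk_sound (a b : ℕ) (h : chk a b = true) : ∃ i j : Fin 8, i ≠ j ∧
    ((dig a i : ℕ) : ZMod 4) - (dig b i : ℕ) = 2 ∧ ((dig a j : ℕ) : ZMod 4) ≠ (dig b j : ℕ) := by
  simp only [chk, List.any_eq_true, List.mem_range, Bool.and_eq_true, beq_iff_eq, bne_iff_ne] at h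
  obtain ⟨i, hi, h1, j, hj, hij, h2⟩ := h
  refine ⟨⟨i, hi⟩, ⟨j, hj⟩, fun h => hij (congrArg Fin.val h), ?_, ?_⟩
  · rw [← h1, ZMod.natCast_mod]
    push_cast
    ring_nf
    decide
  · intro h3
    rw [ZMod.natCast_eq_natCast_iff'] at h3
    apply h2
    simpa [dig] using h3

theorem word_spec (a b : Fin 256) (hab : a ≠ b) :
    ∃ i j : Fin 8, i ≠ j ∧ word a i - word b i = 2 ∧ word a j ≠ word b j := by
  have h := List.pairwise_iff_getElem.1 (pairwise_of_pw _ pw_clique)
  rcases lt_or_gt_of_ne hab with hlt | hlt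
  · exact chk_sound _ _ (h a b _ _ hlt)
  · obtain ⟨i, j, hij, h1, h2⟩ := chk_sound _ _ (h b a (by rw [clique_length]; exact b.isLt)
      (by rw [clique_length]; exact a.isLt) hlt)
    refine ⟨i, j, hij, ?_, fun h => h2 h.symm⟩
    change word b i - word a i = 2 at h1
    rw [← neg_sub, h1]
    decide

theorem word_cover (c : Fin 8 → ZMod 4) :
    ∃ (a : Fin 256) (e : Fin 8 → Fin 2), ∀ j, word a j = c j + ((e j : ℕ) : ZMod 4) := by
  let f : Fin 256 × (Fin 8 → Fin 2) → (Fin 8 → ZMod 4) :=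
    fun p j => word p.1 j - ((p.2 j : ℕ) : ZMod 4)
  have hinj : Function.Injective f := by
    rintro ⟨a, e⟩ ⟨b, e'⟩ h
    have hab : a = b := by
      by_contra hab
      obtain ⟨i, -, -, h1, -⟩ := word_spec a b hab
      have h2 : word a i - ((e i : ℕ) : ZMod 4) = word b i - ((e' i : ℕ) : ZMod 4) := congrFun h i
      have h3 : ((e i : ℕ) : ZMod 4) - ((e' i : ℕ) : ZMod 4) = 2 := by
        rw [← h1]; linear_combination -h2
      revert h3
      generalize e i = u
      generalize e' i = v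
      revert u v
      decide
    subst hab
    congr 1
    funext j
    have h2 : word a j - ((e j : ℕ) : ZMod 4) = word a j - ((e' j : ℕ) : ZMod 4) := congrFun h j
    have h3 : ((e j : ℕ) : ZMod 4) = ((e' j : ℕ) : ZMod 4) := by linear_combination -h2
    revert h3
    generalize e j = u
    generalize e' j = v
    revert u v
    decide
  have hbij : Function.Bijective f :=
    (Fintype.bijective_iff_injective_and_card f).2 ⟨hinj, by simp⟩
  obtain ⟨⟨a, e⟩, h⟩ := hbij.2 c
  refine ⟨a, e, fun j => ?_⟩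
  have h2 : word a j - ((e j : ℕ) : ZMod 4) = c j := congrFun h j
  linear_combination h2

/-- the centres of the cubes of the tiling -/
def centres : Set (Fin 8 → ℝ) :=
  {x | ∃ z : Fin 8 → ℤ, (∃ a, ∀ j, (z j : ZMod 4) = word a j) ∧ x = fun j => (z j : ℝ)}

theorem centres_cover (x : Fin 8 → ℝ) : ∃ p ∈ centres, ‖x - p‖ ≤ 1 := by
  obtain ⟨a, e, h⟩ := word_cover (fun j => (⌊x j⌋ : ZMod 4))
  refine ⟨_, ⟨fun j => ⌊x j⌋ + (e j : ℕ), ⟨a, fun j => by rw [h j]; push_cast; rfl⟩, rfl⟩, ?_⟩
  rw [pi_norm_le_iff_of_nonneg zero_le_one]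
  intro j
  have h1 := Int.floor_le (x j)
  have h2 := Int.lt_floor_add_one (x j)
  have h3 : ((e j : ℕ) : ℝ) ≤ 1 := by exact_mod_cast Nat.lt_succ_iff.1 (e j).isLt
  have h4 : (0 : ℝ) ≤ ((e j : ℕ) : ℝ) := Nat.cast_nonneg _
  rw [Pi.sub_apply, Real.norm_eq_abs, abs_le]
  push_cast
  constructor <;> linarith

theorem centres_sep (p : Fin 8 → ℝ) (hp : p ∈ centres) (q : Fin 8 → ℝ) (hq : q ∈ centres)
    (hpq : p ≠ q) :
    (∃ i, 4 ≤ |p i - q i|) ∨ ∃ i j, i ≠ j ∧ 2 ≤ |p i - q i| ∧ 1 ≤ |p j - q j| := by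
  obtain ⟨z, ⟨a, ha⟩, rfl⟩ := hp
  obtain ⟨z', ⟨b, hb⟩, rfl⟩ := hq
  by_cases hab : a = b
  · left
    obtain ⟨i, hi⟩ := Function.ne_iff.1 hpq
    have hi' : z i ≠ z' i := fun h => hi (by rw [h])
    have h1 : (z i : ZMod 4) = (z' i : ZMod 4) := by rw [ha, hb, hab]
    rw [ZMod.intCast_eq_intCast_iff_dvd_sub] at h1
    refine ⟨i, ?_⟩
    have h2 : (4 : ℤ) ≤ |z i - z' i| := by
      obtain ⟨c, hc⟩ := h1
      rw [le_abs]
      push_cast at hc
      omega
    beta_reduce
    exact_mod_cast h2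
  · right
    obtain ⟨i, j, hij, h1, h2⟩ := word_spec a b hab
    refine ⟨i, j, hij, ?_, ?_⟩
    · rw [← ha, ← hb] at h1
      have h3 : ((z i - z' i : ℤ) : ZMod 4) = ((2 : ℤ) : ZMod 4) := by push_cast; exact h1
      rw [ZMod.intCast_eq_intCast_iff_dvd_sub] at h3
      have h4 : (2 : ℤ) ≤ |z i - z' i| := by
        obtain ⟨c, hc⟩ := h3
        rw [le_abs]
        push_cast at hc
        omega
      beta_reduce
      exact_mod_cast h4
    · rw [← ha, ← hb] at h2
      have h3 : z j ≠ z' j := fun h => h2 (by rw [h])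
      have h4 : (1 : ℤ) ≤ |z j - z' j| := Int.one_le_abs (sub_ne_zero.2 h3)
      beta_reduce
      exact_mod_cast h4

end Pool.Agent.H477Z.Kel
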