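import Mathlib

set_option autoImplicit false

namespace Pool.Agent.H477Z.Kel

open ArithmeticFunction
open scoped ArithmeticFunction.Omega

section Cover

variable {Γ : Type} [CommGroup Γ] [Finite Γ] {ι : Type} [DecidableEq ι]

/-- `F` is invariant under `D` and misses a coset of a subgroup of prime index inside every coset
of a subgroup not contained in `D`. -/
def Thin (D : Subgroup Γ) (F : Set Γ) : Prop :=
  (∀ x ∈ F, ∀ d ∈ D, x * d ∈ F) ∧
  ∀ Δ : Subgroup Γ, ¬ Δ ≤ D → ∃ M : Subgroup Γ, M ≤ Δ ∧ Δ ⊓ D ≤ M ∧ (M.relIndex Δ).Prime ∧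
    ∀ s : Γ, ∃ δ ∈ Δ, ∀ m ∈ M, s * δ * m ∉ F

omit [CommGroup Γ] [Finite Γ] in
theorem exists_minimal_cover (F : ι → Set Γ) (I : Finset ι) (S : Set Γ)
    (h : ∀ x ∈ S, ∃ i ∈ I, x ∈ F i) :
    ∃ J ⊆ I, (∀ x ∈ S, ∃ i ∈ J, x ∈ F i) ∧ ∀ j ∈ J, ∃ x ∈ S, ∀ i ∈ J, x ∈ F i → i = j := by
  classical
  obtain ⟨J, hJ, hmin⟩ := Finset.exists_min_image
    (I.powerset.filter fun J => ∀ x ∈ S, ∃ i ∈ J, x ∈ F i) Finset.card
    ⟨I, by simpa using h⟩
  rw [Finset.mem_filter, Finset.mem_powerset] at hJ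
  refine ⟨J, hJ.1, hJ.2, ?_⟩
  intro j hj
  by_contra hcon
  push Not at hcon
  have h1 : J.erase j ∈ I.powerset.filter fun J => ∀ x ∈ S, ∃ i ∈ J, x ∈ F i := by
    rw [Finset.mem_filter, Finset.mem_powerset]
    refine ⟨(Finset.erase_subset _ _).trans hJ.1, ?_⟩
    intro x hx
    obtain ⟨i, hi, hxi, hne⟩ := hcon x hx
    exact ⟨i, Finset.mem_erase.2 ⟨hne, hi⟩, hxi⟩
  have h2 := hmin _ h1
  have h3 := Finset.card_erase_lt_of_mem hj
  omega

theorem relIndex_ne (H K : Subgroup Γ) : H.relIndex K ≠ 0 :=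
  Subgroup.index_ne_zero_of_finite

theorem cover_lemma (D : ι → Subgroup Γ) (F : ι → Set Γ) (n : ℕ) :
    ∀ (I : Finset ι), I.card = n → I.Nonempty → (∀ i ∈ I, Thin (D i) (F i)) →
      ∀ (Δ : Subgroup Γ) (S : Set Γ), (∀ x ∈ S, ∀ δ ∈ Δ, x * δ ∈ S) →
        (∀ x ∈ S, ∃ i ∈ I, x ∈ F i) → (∀ j ∈ I, ∃ x ∈ S, ∀ i ∈ I, x ∈ F i → i = j) →
        Ω ((I.inf D).relIndex Δ) < n := by
  induction n using Nat.strong_induction_on with
  | _ n ih =>
  intro I hn hne hthin Δ S hS hcov hess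
  have hnpos : 0 < n := by rw [← hn]; exact hne.card_pos
  by_cases hall : ∀ i ∈ I, Δ ≤ D i
  · have : (I.inf D).relIndex Δ = 1 := Subgroup.relIndex_eq_one.2 (Finset.le_inf hall)
    rw [this, cardFactors_one]
    exact hnpos
  push Not at hall
  obtain ⟨i0, hi0, hΔ⟩ := hall
  obtain ⟨M, hMΔ, hDM, hprime, hmiss⟩ := (hthin i0 hi0).2 Δ hΔ
  let S2 : Set Γ := {s | s ∈ S ∧ ∀ m ∈ M, s * m ∉ F i0}
  have hS2cov : ∀ x ∈ S2, ∃ i ∈ I.erase i0, x ∈ F i := by
    intro x hx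
    obtain ⟨i, hi, hxi⟩ := hcov x hx.1
    refine ⟨i, Finset.mem_erase.2 ⟨?_, hi⟩, hxi⟩
    rintro rfl
    exact hx.2 1 M.one_mem (by simpa using hxi)
  obtain ⟨J, hJI, hJcov, hJess⟩ := exists_minimal_cover F (I.erase i0) S2 hS2cov
  have hJI' : J ⊆ I := hJI.trans (Finset.erase_subset _ _)
  have hJne : J.Nonempty := by
    obtain ⟨x, hx, -⟩ := hess i0 hi0
    obtain ⟨δ, hδ, hδF⟩ := hmiss x
    obtain ⟨i, hi, -⟩ := hJcov (x * δ) ⟨hS x hx δ hδ, hδF⟩
    exact ⟨i, hi⟩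
  have hi0J : i0 ∉ J := fun h => by simpa using hJI h
  have hJlt : J.card < n := by
    rw [← hn]
    exact Finset.card_lt_card ⟨hJI', fun h => hi0J (h hi0)⟩
  have h1 := ih J.card hJlt J rfl hJne (fun i hi => hthin i (hJI' hi)) M S2 ?_ hJcov hJess
  swap
  · intro x hx m hm
    refine ⟨hS x hx.1 m (hMΔ hm), ?_⟩
    intro m' hm'
    rw [mul_assoc]
    exact hx.2 _ (M.mul_mem hm hm')
  let S3 : Set Γ := {s | s ∈ S ∧ ∀ j ∈ J, s ∉ F j}
  have hcard : (I \ J).card + J.card = n := by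
    rw [Finset.card_sdiff_add_card_eq_card hJI', hn]
  have hJpos := hJne.card_pos
  have h2 := ih (I \ J).card (by omega) (I \ J) rfl ⟨i0, Finset.mem_sdiff.2 ⟨hi0, hi0J⟩⟩
    (fun i hi => hthin i (Finset.mem_sdiff.1 hi).1) (J.inf D ⊓ Δ) S3 ?_ ?_ ?_
  · have h3 : I.inf D = (I \ J).inf D ⊓ J.inf D := by
      rw [← Finset.inf_union, Finset.sdiff_union_of_subset hJI']
    have h4 := Subgroup.relIndex_inf_mul_relIndex ((I \ J).inf D) (J.inf D) Δ
    have h5 := Subgroup.relIndex_inf_mul_relIndex (J.inf D) M Δ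
    rw [inf_of_le_left hMΔ] at h5
    have h6 : (J.inf D).relIndex Δ ∣ (J.inf D ⊓ M).relIndex Δ :=
      Subgroup.relIndex_dvd_of_le_left Δ inf_le_left
    obtain ⟨c, hc⟩ := h6
    have hc0 : c ≠ 0 := by
      rintro rfl
      exact relIndex_ne _ _ (by simpa using hc)
    have h7 : Ω ((J.inf D).relIndex Δ) ≤ J.card := by
      have e1 := congrArg Ω h5
      rw [hc, cardFactors_mul (relIndex_ne _ _) (relIndex_ne _ _),
        cardFactors_mul (relIndex_ne _ _) hc0, cardFactors_apply_prime hprime] at e1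
      omega
    rw [h3, ← h4, cardFactors_mul (relIndex_ne _ _) (relIndex_ne _ _)]
    omega
  · intro x hx δ hδ
    refine ⟨hS x hx.1 δ hδ.2, ?_⟩
    intro j hj hF
    have hδj : δ ∈ D j := (Finset.inf_le hj : J.inf D ≤ D j) hδ.1
    have := (hthin j (hJI' hj)).1 _ hF δ⁻¹ ((D j).inv_mem hδj)
    exact hx.2 j hj (by simpa using this)
  · intro x hx
    obtain ⟨i, hi, hxi⟩ := hcov x hx.1
    exact ⟨i, Finset.mem_sdiff.2 ⟨hi, fun h => hx.2 i h hxi⟩, hxi⟩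
  · intro j hj
    obtain ⟨hjI, hjJ⟩ := Finset.mem_sdiff.1 hj
    obtain ⟨x, hx, hxe⟩ := hess j hjI
    refine ⟨x, ⟨hx, fun i hi hF => hjJ ?_⟩, fun i hi hF => hxe i (Finset.mem_sdiff.1 hi).1 hF⟩
    rw [← hxe i (hJI' hi) hF]
    exact hi

/-- a criterion for thinness of a preimage under a character -/
theorem thin_preimage (f : Γ →* ℂˣ) (Z : Set ℂ)
    (hZ : ∀ r : ℕ, 1 < r → ∃ q k : ℕ, q.Prime ∧ r = q * k ∧
      ∀ c : ℂ, c ≠ 0 → ∃ ζ : ℂ, ζ ^ q = 1 ∧ ∀ z ∈ Z, z ^ k ≠ c * ζ) :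
    Thin f.ker {x | (f x : ℂ) ∈ Z} := by
  classical
  refine ⟨?_, ?_⟩
  · intro x hx d hd
    have : f d = 1 := hd
    simpa [this] using hx
  intro Δ hΔ
  have hex : ∃ r : ℕ, 0 < r ∧ ∀ δ ∈ Δ, f δ ^ r = 1 :=
    ⟨Nat.card Γ, Nat.card_pos, fun δ _ => by rw [← map_pow, pow_card_eq_one', map_one]⟩
  obtain ⟨hr0, hr⟩ := Nat.find_spec hex
  set r := Nat.find hex with hrdef
  have hr1 : 1 < r := by
    by_contra h
    have h1 : r = 1 := by omega
    apply hΔ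
    intro δ hδ
    have := hr δ hδ
    rwa [h1, pow_one] at this
  obtain ⟨q, k, hq, hqk, hZ'⟩ := hZ r hr1
  have hk0 : 0 < k := by
    rcases Nat.eq_zero_or_pos k with h | h
    · rw [h] at hqk; omega
    · exact h
  have hkr : k < r := by
    have := hq.two_le
    nlinarith
  let θ : Γ →* ℂˣ := (powMonoidHom k).comp f
  have hθ : ∀ x, θ x = f x ^ k := fun x => rfl
  have : NeZero q := ⟨hq.ne_zero⟩
  have hle : Δ.map θ ≤ rootsOfUnity q ℂ := by
    rintro _ ⟨δ, hδ, rfl⟩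
    rw [mem_rootsOfUnity, hθ, ← pow_mul, mul_comm, ← hqk]
    exact hr δ hδ
  have hcardq : Nat.card (rootsOfUnity q ℂ) = q := Complex.card_rootsOfUnity q
  have hne : Δ.map θ ≠ ⊥ := by
    intro h
    refine Nat.find_min hex hkr ⟨hk0, ?_⟩
    intro δ hδ
    have : θ δ ∈ Δ.map θ := ⟨δ, hδ, rfl⟩
    rw [h] at this
    exact this
  have hcard : Nat.card (Δ.map θ) = q := by
    have h1 : Nat.card (Δ.map θ) ∣ q := hcardq ▸ Subgroup.card_dvd_of_le hle
    rcases (Nat.dvd_prime hq).1 h1 with h | h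
    · exact absurd (Subgroup.card_eq_one.1 h) hne
    · exact h
  have heq : Δ.map θ = rootsOfUnity q ℂ :=
    Subgroup.eq_of_le_of_card_ge hle (by rw [hcard, hcardq])
  refine ⟨θ.ker ⊓ Δ, inf_le_right, ?_, ?_, ?_⟩
  · intro x hx
    refine ⟨?_, hx.1⟩
    have : f x = 1 := hx.2
    change θ x = 1
    rw [hθ, this, one_pow]
  · rw [Subgroup.inf_relIndex_right, Subgroup.relIndex_ker, hcard]
    exact hq
  · intro s
    obtain ⟨ζ, hζ, hζZ⟩ := hZ' (θ s : ℂ) (θ s).ne_zero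
    have hζ0 : ζ ≠ 0 := by
      rintro rfl
      rw [zero_pow hq.ne_zero] at hζ
      exact zero_ne_one hζ
    have hmem : Units.mk0 ζ hζ0 ∈ Δ.map θ := by
      rw [heq, mem_rootsOfUnity]
      ext
      simpa using hζ
    obtain ⟨δ, hδ, hδe⟩ := hmem
    refine ⟨δ, hδ, ?_⟩
    intro m hm hF
    refine hζZ _ hF ?_
    have hm1 : θ m = 1 := hm.1
    have : θ (s * δ * m) = θ s * Units.mk0 ζ hζ0 := by
      rw [map_mul, map_mul, hm1, mul_one, hδe]
    rw [hθ] at this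
    have h2 := congrArg (fun u : ℂˣ => (u : ℂ)) this
    simpa using h2

theorem thin_ker (f : Γ →* ℂˣ) : Thin f.ker {x | (f x : ℂ) ∈ ({1} : Set ℂ)} := by
  refine thin_preimage f _ ?_
  intro r hr
  obtain ⟨q, hq, k, hk⟩ := Nat.exists_prime_and_dvd (show r ≠ 1 by omega)
  refine ⟨q, k, hq, hk, ?_⟩
  intro c hc
  have hζ := Complex.isPrimitiveRoot_exp q hq.ne_zero
  by_cases h1 : c = 1
  · refine ⟨_, hζ.pow_eq_one, ?_⟩
    rintro z rfl h
    rw [one_pow, h1, one_mul] at h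
    exact hζ.ne_one hq.one_lt h.symm
  · refine ⟨1, one_pow _, ?_⟩
    rintro z rfl h
    rw [one_pow, mul_one] at h
    exact h1 h.symm

theorem thin_roots (f : Γ →* ℂˣ) {p : ℕ} (hp : p.Prime) :
    Thin f.ker {x | (f x : ℂ) ∈ {z : ℂ | z ^ p = 1 ∧ z ≠ 1}} := by
  classical
  refine thin_preimage f _ ?_
  intro r hr
  by_cases hpr : p ∣ r
  · obtain ⟨k, hk⟩ := hpr
    refine ⟨p, k, hp, hk, ?_⟩
    intro c hc
    have hζ := Complex.isPrimitiveRoot_exp p hp.ne_zero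
    have hcard := hζ.card_nthRootsFinset
    by_contra hcon
    push Not at hcon
    have hsub : Polynomial.nthRootsFinset p (1 : ℂ) ⊆
        ((Polynomial.nthRootsFinset p (1 : ℂ)).erase 1).image (fun z => z ^ k / c) := by
      intro ζ hζ'
      rw [Polynomial.mem_nthRootsFinset hp.pos] at hζ'
      obtain ⟨z, hz, hzk⟩ := hcon ζ hζ'
      refine Finset.mem_image.2 ⟨z, Finset.mem_erase.2 ⟨hz.2, ?_⟩, ?_⟩
      · rw [Polynomial.mem_nthRootsFinset hp.pos]; exact hz.1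
      · rw [hzk]; field_simp
    have h1 := (Finset.card_le_card hsub).trans Finset.card_image_le
    rw [Finset.card_erase_of_mem (by rw [Polynomial.mem_nthRootsFinset hp.pos]; simp), hcard] at h1
    have := hp.pos
    omega
  · obtain ⟨q, hq, k, hk⟩ := Nat.exists_prime_and_dvd (show r ≠ 1 by omega)
    refine ⟨q, k, hq, hk, ?_⟩
    intro c hc
    have hζ := Complex.isPrimitiveRoot_exp q hq.ne_zero
    by_contra hcon
    push Not at hcon
    obtain ⟨z, hz, hzk⟩ := hcon 1 (one_pow _)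
    obtain ⟨z', hz', hzk'⟩ := hcon _ hζ.pow_eq_one
    have h1 : c ^ p = 1 := by
      rw [mul_one] at hzk
      rw [← hzk, ← pow_mul, mul_comm, pow_mul, hz.1, one_pow]
    have h2 : (c * Complex.exp (2 * Real.pi * Complex.I / q)) ^ p = 1 := by
      rw [← hzk', ← pow_mul, mul_comm, pow_mul, hz'.1, one_pow]
    rw [mul_pow, h1, one_mul] at h2
    have h3 := hζ.dvd_of_pow_eq_one p h2
    have h4 : q = p := (Nat.prime_dvd_prime_iff_eq hq hp).1 h3
    exact hpr ⟨k, by rw [← h4]; exact hk⟩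

end Cover

end Pool.Agent.H477Z.Kel
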