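import Mathlib

set_option autoImplicit false

namespace Pool.Agent.H477Z.Kel

/-- `P` is `r`-separated: distinct points of `P` are at distance at least `r`. -/
def IsSeparated {X : Type} [NormedAddCommGroup X] (r : ℝ) (P : Set X) : Prop :=
  ∀ x ∈ P, ∀ y ∈ P, x ≠ y → r ≤ ‖x - y‖

/-- `P` is `r`-dense: every point of the space is within distance `r` of a point of `P`. -/
def IsDense {X : Type} [NormedAddCommGroup X] (r : ℝ) (P : Set X) : Prop :=
  ∀ x : X, ∃ p ∈ P, ‖x - p‖ ≤ r

/-- the simultaneous packing and covering constant -/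
noncomputable def gamma (X : Type) [NormedAddCommGroup X] : ℝ :=
  sInf {r : ℝ | 0 < r ∧ ∃ P : Set X, IsDense r P ∧ IsSeparated 2 P}

/-- the lattice simultaneous packing and covering constant -/
noncomputable def gammaStar (X : Type) [NormedAddCommGroup X] : ℝ :=
  sInf {r : ℝ | 0 < r ∧ ∃ P : AddSubgroup X, IsDense r (P : Set X) ∧ IsSeparated 2 (P : Set X)}

end Pool.Agent.H477Z.Kel
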