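import Pool.Agent.H477Z.Kel.Cover

set_option autoImplicit false

namespace Pool.Agent.H477Z.Kel

open ArithmeticFunction
open scoped ArithmeticFunction.Omega Pointwise

section Hajos

variable {G : Type} [CommGroup G] [DecidableEq G]

/-- the cyclic set `{1, a, ..., a ^ (m - 1)}` -/
def cyc (x : G × ℕ) : Finset G := (Finset.range x.2).image (fun k => x.1 ^ k)

/-- the product set of a family of cyclic sets -/
def pr (s : Multiset (G × ℕ)) : Finset G := (s.map cyc).prod

/-- the product of the sizes -/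
def wt (s : Multiset (G × ℕ)) : ℕ := (s.map Prod.snd).prod

theorem pr_add (t u : Multiset (G × ℕ)) : pr (t + u) = pr t * pr u := by
  simp [pr]

omit [CommGroup G] [DecidableEq G] in
theorem wt_add (t u : Multiset (G × ℕ)) : wt (t + u) = wt t * wt u := by
  simp [wt]

theorem pr_cons (x : G × ℕ) (u : Multiset (G × ℕ)) : pr (x ::ₘ u) = cyc x * pr u := by
  simp [pr]

omit [CommGroup G] [DecidableEq G] in
theorem wt_cons (x : G × ℕ) (u : Multiset (G × ℕ)) : wt (x ::ₘ u) = x.2 * wt u := by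
  simp [wt]

theorem card_cyc_le (x : G × ℕ) : (cyc x).card ≤ x.2 :=
  Finset.card_image_le.trans (by simp)

theorem card_pr_le (s : Multiset (G × ℕ)) : (pr s).card ≤ wt s := by
  induction s using Multiset.induction_on with
  | empty => simp [pr, wt]
  | cons x u ih =>
    rw [pr_cons, wt_cons]
    exact Finset.card_mul_le.trans (Nat.mul_le_mul (card_cyc_le x) ih)

omit [CommGroup G] [DecidableEq G] in
theorem wt_pos (s : Multiset (G × ℕ)) (h : ∀ x ∈ s, 0 < x.2) : 0 < wt s := by
  induction s using Multiset.induction_on with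
  | empty => simp [wt]
  | cons x u ih =>
    rw [wt_cons]
    exact Nat.mul_pos (h x (Multiset.mem_cons_self _ _))
      (ih fun y hy => h y (Multiset.mem_cons_of_mem hy))

theorem split_card {A B : Finset G} {a b : ℕ} (hA : A.card ≤ a) (hB : B.card ≤ b)
    (ha : 0 < a) (hb : 0 < b) (h : (A * B).card = a * b) :
    A.card = a ∧ B.card = b ∧ (A * B).card = A.card * B.card := by
  have h1 : (A * B).card ≤ A.card * B.card := Finset.card_mul_le
  have h2 : A.card = a := by
    by_contra hne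
    have : A.card * B.card < a * b :=
      Nat.mul_lt_mul_of_lt_of_le (lt_of_le_of_ne hA hne) hB hb
    omega
  have h3 : B.card = b := by
    by_contra hne
    have : A.card * B.card < a * b :=
      Nat.mul_lt_mul_of_le_of_lt hA (lt_of_le_of_ne hB hne) ha
    omega
  exact ⟨h2, h3, by rw [h, h2, h3]⟩

theorem sum_mul_finset {A B : Finset G} (h : (A * B).card = A.card * B.card) (χ : G →* ℂ) :
    ∑ g ∈ A * B, χ g = (∑ g ∈ A, χ g) * ∑ g ∈ B, χ g := by
  rw [Finset.card_mul_iff, ← Finset.coe_product] at h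
  rw [Finset.mul_def, Finset.sum_image h, Finset.sum_product, Finset.sum_mul_sum]
  simp

theorem sum_pr (χ : G →* ℂ) (s : Multiset (G × ℕ)) (hpos : ∀ x ∈ s, 0 < x.2)
    (h : (pr s).card = wt s) (h0 : ∑ g ∈ pr s, χ g = 0) :
    ∃ x ∈ s, χ x.1 ^ x.2 = 1 ∧ χ x.1 ≠ 1 := by
  induction s using Multiset.induction_on with
  | empty =>
    have : pr (0 : Multiset (G × ℕ)) = {1} := rfl
    rw [this] at h0
    simp at h0
  | cons x u ih =>
    have hposu : ∀ y ∈ u, 0 < y.2 := fun y hy => hpos y (Multiset.mem_cons_of_mem hy)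
    have hx := hpos x (Multiset.mem_cons_self _ _)
    rw [pr_cons, wt_cons] at h
    obtain ⟨h1, h2, h3⟩ := split_card (card_cyc_le x) (card_pr_le u) hx (wt_pos u hposu) h
    rw [pr_cons, sum_mul_finset h3, mul_eq_zero] at h0
    rcases h0 with h0 | h0
    · refine ⟨x, Multiset.mem_cons_self _ _, ?_⟩
      have hinj : Set.InjOn (fun k => x.1 ^ k) (Finset.range x.2 : Set ℕ) := by
        rw [← Finset.card_image_iff]
        simpa [cyc] using h1
      rw [cyc, Finset.sum_image hinj] at h0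
      simp only [map_pow] at h0
      refine ⟨?_, ?_⟩
      · have := mul_geom_sum (χ x.1) x.2
        rw [h0, mul_zero] at this
        exact (sub_eq_zero.1 this.symm)
      · intro h1
        rw [h1] at h0
        simp at h0
        omega
    · obtain ⟨y, hy, hy'⟩ := ih hposu h2 h0
      exact ⟨y, Multiset.mem_cons_of_mem hy, hy'⟩

theorem pr_subset (K : Subgroup G) (s : Multiset (G × ℕ)) (h : ∀ x ∈ s, x.1 ∈ K) :
    ∀ g ∈ pr s, g ∈ K := by
  induction s using Multiset.induction_on with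
  | empty =>
    intro g hg
    have : g = 1 := by simpa [pr] using hg
    rw [this]; exact K.one_mem
  | cons x u ih =>
    intro g hg
    rw [pr_cons, Finset.mem_mul] at hg
    obtain ⟨a, ha, b, hb, rfl⟩ := hg
    obtain ⟨k, -, rfl⟩ := Finset.mem_image.1 ha
    exact K.mul_mem (K.pow_mem (h x (Multiset.mem_cons_self _ _)) k)
      (ih (fun y hy => h y (Multiset.mem_cons_of_mem hy)) b hb)

theorem one_mem_pr (s : Multiset (G × ℕ)) (h : ∀ x ∈ s, 0 < x.2) : (1 : G) ∈ pr s := by
  induction s using Multiset.induction_on with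
  | empty => simp [pr]
  | cons x u ih =>
    rw [pr_cons, Finset.mem_mul]
    refine ⟨1, Finset.mem_image.2 ⟨0, ?_, pow_zero _⟩, 1,
      ih (fun y hy => h y (Multiset.mem_cons_of_mem hy)), one_mul _⟩
    simpa using h x (Multiset.mem_cons_self _ _)

theorem mem_pr_of_mem (s : Multiset (G × ℕ)) (h : ∀ x ∈ s, 1 < x.2) (x : G × ℕ) (hx : x ∈ s) :
    x.1 ∈ pr s := by
  obtain ⟨u, rfl⟩ := Multiset.exists_cons_of_mem hx
  rw [pr_cons, Finset.mem_mul]
  refine ⟨x.1, Finset.mem_image.2 ⟨1, ?_, pow_one _⟩, 1,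
    one_mem_pr u (fun y hy => (h y (Multiset.mem_cons_of_mem hy)).le), mul_one _⟩
  simpa using h x hx

omit [CommGroup G] [DecidableEq G] in
theorem omega_wt (s : Multiset (G × ℕ)) (h : ∀ x ∈ s, x.2.Prime) : Ω (wt s) = s.card := by
  induction s using Multiset.induction_on with
  | empty => simp [wt]
  | cons x u ih =>
    have hu : ∀ y ∈ u, y.2.Prime := fun y hy => h y (Multiset.mem_cons_of_mem hy)
    have hx := h x (Multiset.mem_cons_self _ _)
    rw [wt_cons, cardFactors_mul hx.ne_zero (wt_pos u fun y hy => (hu y hy).pos).ne',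
      cardFactors_apply_prime hx, ih hu, Multiset.card_cons, add_comm]

/-- evaluation of characters at a point -/
def ev (a : G) : (G →* ℂˣ) →* ℂˣ where
  toFun χ := χ a
  map_one' := rfl
  map_mul' _ _ := rfl

variable [Fintype G]

omit [DecidableEq G] in
theorem index_ann (K : Subgroup G) :
    (MonoidHom.domRestrictHom K ℂˣ).ker.index = Nat.card K := by
  have : NeZero (Monoid.exponent G) := ⟨Monoid.exponent_ne_zero_of_finite⟩
  have : NeZero (Monoid.exponent K) := ⟨Monoid.exponent_ne_zero_of_finite⟩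
  rw [Subgroup.index_ker, MonoidHom.range_eq_top.2 (MonoidHom.domRestrict_surjective ℂ K),
    Subgroup.card_top, CommGroup.card_monoidHom_of_hasEnoughRootsOfUnity]

theorem hajos_prime (n : ℕ) : ∀ s : Multiset (G × ℕ), s.card = n → s ≠ 0 →
    (∀ x ∈ s, x.2.Prime) → ∀ H : Subgroup G, (∀ g, g ∈ pr s ↔ g ∈ H) → (pr s).card = wt s →
    ∃ x ∈ s, x.1 ^ x.2 = 1 := by
  classical
  induction n using Nat.strong_induction_on with
  | _ n ih =>
  intro s hn hs hprime H hH hcard
  obtain ⟨x0, hx0⟩ := Multiset.exists_mem_of_ne_zero hs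
  obtain ⟨u, rfl⟩ := Multiset.exists_cons_of_mem hx0
  by_cases hg : x0.1 ^ x0.2 = 1
  · exact ⟨x0, hx0, hg⟩
  have : NeZero (Monoid.exponent G) := ⟨Monoid.exponent_ne_zero_of_finite⟩
  have hfin : Finite (G →* ℂˣ) := by
    apply Nat.finite_of_card_ne_zero
    rw [CommGroup.card_monoidHom_of_hasEnoughRootsOfUnity]
    exact Nat.card_pos.ne'
  let el : Option (G × ℕ) → G := fun o => o.elim (x0.1 ^ x0.2) Prod.fst
  let Z : Option (G × ℕ) → Set ℂ := fun o => o.elim {1} (fun x => {z | z ^ x.2 = 1 ∧ z ≠ 1})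
  let F : Option (G × ℕ) → Set (G →* ℂˣ) := fun o => {χ | (ev (el o) χ : ℂ) ∈ Z o}
  let I : Finset (Option (G × ℕ)) := insert none (u.toFinset.image some)
  have hposs : ∀ x ∈ x0 ::ₘ u, 0 < x.2 := fun x hx => (hprime x hx).pos
  have hcov : ∀ χ ∈ (Set.univ : Set (G →* ℂˣ)), ∃ i ∈ I, χ ∈ F i := by
    intro χ _
    by_cases h1 : χ (x0.1 ^ x0.2) = 1
    · refine ⟨none, Finset.mem_insert_self _ _, ?_⟩
      change ((χ (x0.1 ^ x0.2) : ℂˣ) : ℂ) = 1
      rw [h1]; rfl
    have hgH : x0.1 ^ x0.2 ∈ H :=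
      H.pow_mem ((hH _).1 (mem_pr_of_mem _ (fun x hx => (hprime x hx).one_lt) x0 hx0)) _
    let χ' : G →* ℂ := (Units.coeHom ℂ).comp χ
    have hsum : ∑ g ∈ pr (x0 ::ₘ u), χ' g = 0 := by
      have h2 := sum_hom_units_eq_zero (χ'.comp H.subtype) (by
        intro h
        apply h1
        have := DFunLike.congr_fun h ⟨_, hgH⟩
        ext
        simpa [χ'] using this)
      rw [← h2]
      exact Finset.sum_subtype _ hH _
    obtain ⟨x, hx, hx1, hx2⟩ := sum_pr χ' _ hposs hcard hsum
    rcases Multiset.mem_cons.1 hx with rfl | hx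
    · exfalso
      apply h1
      ext
      simpa [χ'] using hx1
    · exact ⟨some x, Finset.mem_insert_of_mem
        (Finset.mem_image_of_mem _ (Multiset.mem_toFinset.2 hx)), hx1, hx2⟩
  obtain ⟨J, hJI, hJcov, hJess⟩ := exists_minimal_cover F I Set.univ hcov
  have hnone : none ∈ J := by
    obtain ⟨i, hi, hF⟩ := hJcov 1 trivial
    cases i with
    | none => exact hi
    | some x => exact absurd rfl hF.2
  have hthin : ∀ i ∈ J, Thin (ev (el i)).ker (F i) := by
    intro i hi
    cases i with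
    | none => exact thin_ker _
    | some x =>
      have hx : x ∈ u := by simpa [I] using hJI hi
      exact thin_roots _ (hprime x (Multiset.mem_cons_of_mem hx))
  have hlt := cover_lemma (fun i => (ev (el i)).ker) F J.card J rfl ⟨none, hnone⟩ hthin ⊤ Set.univ
    (fun _ _ _ _ => trivial) hJcov hJess
  let T : Finset (G × ℕ) := Finset.eraseNone J
  have hTJ : ∀ x, x ∈ T ↔ some x ∈ J := fun x => Finset.mem_eraseNone
  have hTcard : T.card + 1 = J.card := by
    have h1 := Finset.card_eraseNone_of_mem hnone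
    have h2 : 0 < J.card := Finset.card_pos.2 ⟨none, hnone⟩
    simp only [T]
    omega
  have hTu : T.val ≤ u := by
    refine (Multiset.le_iff_subset T.nodup).2 ?_
    intro x hx
    simpa [I] using hJI ((hTJ x).1 hx)
  have hTne : T.val ≠ 0 := by
    intro h0
    obtain ⟨χ, hχ⟩ := CommGroup.exists_apply_ne_one_of_hasEnoughRootsOfUnity G ℂ hg
    obtain ⟨i, hi, hF⟩ := hJcov χ trivial
    cases i with
    | none => exact hχ (Units.ext hF)
    | some x =>
      have : x ∈ T.val := (hTJ x).2 hi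
      rw [h0] at this
      simp at this
  let K : Subgroup G := Subgroup.closure (el '' (J : Set (Option (G × ℕ))))
  have hann : J.inf (fun i => (ev (el i)).ker) = (MonoidHom.domRestrictHom K ℂˣ).ker := by
    ext χ
    rw [MonoidHom.mem_ker, MonoidHom.domRestrictHom_apply, MonoidHom.domRestrict_eq_one_iff]
    constructor
    · intro h
      have h1 : K ≤ χ.ker := by
        rw [Subgroup.closure_le]
        rintro _ ⟨i, hi, rfl⟩
        exact (Finset.inf_le hi : J.inf (fun i => (ev (el i)).ker) ≤ _) h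
      exact fun y hy => h1 hy
    · intro h
      have h1 : Subgroup.zpowers χ ≤ J.inf (fun i => (ev (el i)).ker) := by
        refine Finset.le_inf ?_
        intro i hi
        rw [Subgroup.zpowers_le]
        exact h _ (Subgroup.subset_closure ⟨i, hi, rfl⟩)
      exact h1 (Subgroup.mem_zpowers χ)
  rw [hann, Subgroup.relIndex_top_right, index_ann] at hlt
  obtain ⟨v, hv⟩ := Multiset.le_iff_exists_add.1 hTu
  have hs' : x0 ::ₘ u = T.val + (x0 ::ₘ v) := by rw [hv, Multiset.add_cons]
  have hprT : ∀ x ∈ T.val, x.2.Prime := fun x hx =>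
    hprime x (Multiset.mem_cons_of_mem (Multiset.mem_of_le hTu hx))
  have hposv : ∀ x ∈ x0 ::ₘ v, 0 < x.2 := fun x hx =>
    hposs x (by rw [hs']; exact Multiset.mem_add.2 (Or.inr hx))
  have hcard' := hcard
  rw [hs', pr_add, wt_add] at hcard'
  obtain ⟨h1, h2, h3⟩ := split_card (card_pr_le _) (card_pr_le _)
    (wt_pos _ fun x hx => (hprT x hx).pos) (wt_pos _ hposv) hcard'
  have hKH : K ≤ H := by
    rw [Subgroup.closure_le]
    rintro _ ⟨i, hi, rfl⟩
    cases i with
    | none =>
      exact H.pow_mem ((hH _).1 (mem_pr_of_mem _ (fun x hx => (hprime x hx).one_lt) x0 hx0)) _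
    | some x =>
      have hx : x ∈ u := by simpa [I] using hJI hi
      exact (hH _).1 (mem_pr_of_mem _ (fun x hx => (hprime x hx).one_lt) x
        (Multiset.mem_cons_of_mem hx))
  have hTK : ∀ g ∈ pr T.val, g ∈ K := pr_subset K _ fun x hx =>
    Subgroup.subset_closure ⟨some x, (hTJ x).1 hx, rfl⟩
  let B : Finset G := (pr (x0 ::ₘ v)).filter (· ∈ K)
  have hKB : ∀ g, g ∈ pr T.val * B ↔ g ∈ K := by
    intro g
    rw [Finset.mem_mul]
    constructor
    · rintro ⟨a, ha, b, hb, rfl⟩
      exact K.mul_mem (hTK a ha) (Finset.mem_filter.1 hb).2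
    · intro hgK
      have := (hH g).2 (hKH hgK)
      rw [hs', pr_add, Finset.mem_mul] at this
      obtain ⟨a, ha, b, hb, rfl⟩ := this
      refine ⟨a, ha, b, Finset.mem_filter.2 ⟨hb, ?_⟩, rfl⟩
      exact (K.mul_mem_cancel_left (hTK a ha)).1 hgK
  have hBcard : (pr T.val * B).card = (pr T.val).card * B.card := by
    rw [Finset.card_mul_iff] at h3 ⊢
    exact h3.mono (Set.prod_mono le_rfl (Finset.coe_subset.2 (Finset.filter_subset _ _)))
  have hKcard : Nat.card K = wt T.val * B.card := by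
    rw [← h1, ← hBcard, Nat.card_eq_fintype_card, Fintype.card_of_subtype _ hKB]
  have h1B : (1 : G) ∈ B := Finset.mem_filter.2 ⟨one_mem_pr _ hposv, K.one_mem⟩
  have hBpos : 0 < B.card := Finset.card_pos.2 ⟨1, h1B⟩
  rw [hKcard, cardFactors_mul (wt_pos _ fun x hx => (hprT x hx).pos).ne' hBpos.ne',
    omega_wt _ hprT, Finset.card_val] at hlt
  have hB1 : B.card = 1 := by
    have : Ω B.card = 0 := by omega
    rcases cardFactors_eq_zero_iff_eq_zero_or_one.1 this with h | h
    · omega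
    · exact h
  have hB : B = 1 := by
    obtain ⟨b, hb⟩ := Finset.card_eq_one.1 hB1
    rw [hb, Finset.mem_singleton] at h1B
    rw [hb, ← h1B]
    rfl
  rw [hB, mul_one] at hKB
  have hlt' : T.val.card < n := by
    rw [← hn, Multiset.card_cons]
    exact Nat.lt_succ_of_le (Multiset.card_le_card hTu)
  obtain ⟨x, hx, hx1⟩ := ih _ hlt' T.val rfl hTne hprT K hKB h1
  exact ⟨x, Multiset.mem_cons_of_mem (Multiset.mem_of_le hTu hx), hx1⟩

omit [Fintype G] in
theorem cyc_split (a : G) (p q : ℕ) (hp : 0 < p) :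
    cyc (a, p * q) = cyc (a, p) * cyc (a ^ p, q) := by
  ext g
  simp only [cyc, Finset.mem_mul, Finset.mem_image, Finset.mem_range]
  constructor
  · rintro ⟨k, hk, rfl⟩
    refine ⟨_, ⟨k % p, Nat.mod_lt _ hp, rfl⟩, _, ⟨k / p, ?_, rfl⟩, ?_⟩
    · exact Nat.div_lt_of_lt_mul hk
    · rw [← pow_mul, ← pow_add, Nat.mod_add_div]
  · rintro ⟨_, ⟨i, hi, rfl⟩, _, ⟨j, hj, rfl⟩, rfl⟩
    refine ⟨i + p * j, ?_, by rw [← pow_mul, ← pow_add]⟩
    have : p * (j + 1) ≤ p * q := Nat.mul_le_mul_left p hj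
    rw [mul_add, mul_one] at this
    omega

/-- The theorem of Hajos on factorizations of finite abelian groups by cyclic subsets. -/
theorem hajos (n : ℕ) : ∀ s : Multiset (G × ℕ), (s.map fun x => x.2 - 1).sum = n → s ≠ 0 →
    (∀ x ∈ s, 1 < x.2) → ∀ H : Subgroup G, (∀ g, g ∈ pr s ↔ g ∈ H) → (pr s).card = wt s →
    ∃ x ∈ s, x.1 ^ x.2 = 1 := by
  induction n using Nat.strong_induction_on with
  | _ n ih =>
  intro s hn hs hgt H hH hcard
  by_cases hprime : ∀ x ∈ s, x.2.Prime
  · exact hajos_prime _ s rfl hs hprime H hH hcard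
  push Not at hprime
  obtain ⟨⟨a, m⟩, hx0, hnp⟩ := hprime
  obtain ⟨u, rfl⟩ := Multiset.exists_cons_of_mem hx0
  have hm : 1 < m := hgt _ hx0
  obtain ⟨p, q, hp, hq, rfl⟩ : ∃ p q : ℕ, 1 < p ∧ 1 < q ∧ m = p * q := by
    obtain ⟨p, q, hp, hq, h⟩ := (Nat.not_prime_iff_exists_mul_eq hm).1 hnp
    refine ⟨p, q, ?_, ?_, h.symm⟩
    · by_contra h1
      have : p = 0 ∨ p = 1 := by omega
      rcases this with rfl | rfl <;> omega
    · by_contra h1
      have : q = 0 ∨ q = 1 := by omega
      rcases this with rfl | rfl <;> omega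
  have hpr : pr ((a, p) ::ₘ (a ^ p, q) ::ₘ u) = pr ((a, p * q) ::ₘ u) := by
    rw [pr_cons, pr_cons, pr_cons, cyc_split a p q (by omega), mul_assoc]
  have hwt : wt ((a, p) ::ₘ (a ^ p, q) ::ₘ u) = wt ((a, p * q) ::ₘ u) := by
    rw [wt_cons, wt_cons, wt_cons, mul_assoc]
  have hlt : (((a, p) ::ₘ (a ^ p, q) ::ₘ u).map fun x => x.2 - 1).sum < n := by
    rw [← hn]
    simp only [Multiset.map_cons, Multiset.sum_cons]
    obtain ⟨p', rfl⟩ : ∃ p', p = p' + 2 := ⟨p - 2, by omega⟩
    obtain ⟨q', rfl⟩ : ∃ q', q = q' + 2 := ⟨q - 2, by omega⟩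
    have : (p' + 2) * (q' + 2) = p' * q' + 2 * p' + 2 * q' + 4 := by ring
    omega
  obtain ⟨x, hx, hx1⟩ := ih _ hlt _ rfl Multiset.cons_ne_zero (by
    intro x hx
    rcases Multiset.mem_cons.1 hx with rfl | hx
    · exact hp
    rcases Multiset.mem_cons.1 hx with rfl | hx
    · exact hq
    · exact hgt x (Multiset.mem_cons_of_mem hx)) H (by rw [hpr]; exact hH) (by rw [hpr, hwt, hcard])
  rcases Multiset.mem_cons.1 hx with rfl | hx
  · exfalso
    rw [pr_cons, wt_cons] at hcard
    obtain ⟨h1, -, -⟩ := split_card (card_cyc_le _) (card_pr_le u) (by omega)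
      (wt_pos u fun y hy => (hgt y (Multiset.mem_cons_of_mem hy)).le) hcard
    have hinj : Set.InjOn (fun k => a ^ k) (Finset.range (p * q) : Set ℕ) := by
      rw [← Finset.card_image_iff]
      simpa [cyc] using h1
    have hpq : p < p * q := by nlinarith
    have := hinj (x₁ := p) (x₂ := 0) (by simpa using hpq) (by simp; omega) (by simpa using hx1)
    omega
  rcases Multiset.mem_cons.1 hx with rfl | hx
  · exact ⟨_, Multiset.mem_cons_self _ _, by simpa [pow_mul] using hx1⟩
  · exact ⟨x, Multiset.mem_cons_of_mem hx, hx1⟩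

end Hajos

end Pool.Agent.H477Z.Kel
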