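import Pool.Agent.H477Z.Kel.Hajos

set_option autoImplicit false

namespace Pool.Agent.H477Z.Kel

open Filter Topology

section Lattice

variable {n : ℕ} (Λ : AddSubgroup (Fin n → ℝ))

/-- every point lies in exactly one translate of the box with sides `T j` -/
def Tiles (T : Fin n → Set ℝ) : Prop :=
  ∀ x : Fin n → ℝ, ∃! l : Fin n → ℝ, l ∈ Λ ∧ ∀ j, x j - l j ∈ T j

theorem finite_ball (hsep : ∀ l ∈ Λ, l ≠ 0 → 1 ≤ ‖l‖) (R : ℝ) :
    {l : Fin n → ℝ | l ∈ Λ ∧ ‖l‖ ≤ R}.Finite := by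
  let f : (Fin n → ℝ) → (Fin n → ℤ) := fun l j => ⌊l j⌋
  have hfin : (Set.pi Set.univ fun _ : Fin n => Set.Icc ⌊-R⌋ ⌊R⌋).Finite :=
    Set.Finite.pi fun _ => Set.finite_Icc _ _
  refine Set.Finite.of_finite_image (f := f) (hfin.subset ?_) ?_
  · rintro _ ⟨l, hl, rfl⟩ j -
    have h1 : |l j| ≤ R := (norm_le_pi_norm l j).trans hl.2
    exact ⟨Int.floor_mono (abs_le.1 h1).1, Int.floor_mono (abs_le.1 h1).2⟩
  · intro l hl l' hl' h
    by_contra hne
    have h1 := hsep (l - l') (Λ.sub_mem hl.1 hl'.1) (sub_ne_zero.2 hne)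
    have h2 : ‖l - l'‖ < 1 := by
      rw [pi_norm_lt_iff one_pos]
      intro j
      exact Int.abs_sub_lt_one_of_floor_eq_floor (congrFun h j)
    linarith

theorem tiles_unit (hsep : ∀ l ∈ Λ, l ≠ 0 → 1 ≤ ‖l‖)
    (hcov : ∀ x, ∃ l ∈ Λ, ‖x - l‖ ≤ 1 / 2) : Tiles Λ (fun _ => Set.Ico 0 1) := by
  intro x
  have hfin := finite_ball Λ hsep (‖x‖ + 2)
  have hev : ∀ᶠ δ in 𝓝[>] (0 : ℝ), ∀ l ∈ {l : Fin n → ℝ | l ∈ Λ ∧ ‖l‖ ≤ ‖x‖ + 2}, ∀ j,
      -δ ≤ x j - l j → 0 ≤ x j - l j := by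
    rw [hfin.eventually_all]
    intro l _
    rw [eventually_all]
    intro j
    by_cases h : 0 ≤ x j - l j
    · exact Eventually.of_forall fun _ _ => h
    · have h1 : ∀ᶠ δ in 𝓝 (0 : ℝ), δ < -(x j - l j) := eventually_lt_nhds (by linarith)
      filter_upwards [nhdsWithin_le_nhds h1] with δ hδ h2
      linarith
  have hev2 : ∀ᶠ δ in 𝓝[>] (0 : ℝ), δ < 1 / 2 :=
    nhdsWithin_le_nhds (eventually_lt_nhds (by norm_num))
  obtain ⟨δ, hδ, hδ1, hδ0⟩ := (hev.and (hev2.and self_mem_nhdsWithin)).exists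
  have hδ0' : 0 < δ := hδ0
  obtain ⟨l, hl, hxl⟩ := hcov (fun j => x j - 1 / 2 + δ)
  have hc : ∀ j, |x j - 1 / 2 + δ - l j| ≤ 1 / 2 := fun j =>
    (norm_le_pi_norm ((fun j => x j - 1 / 2 + δ) - l) j).trans hxl
  have hnorm : ‖l‖ ≤ ‖x‖ + 2 := by
    rw [pi_norm_le_iff_of_nonneg (by positivity)]
    intro j
    have h1 := abs_le.1 (hc j)
    have h2 : |x j| ≤ ‖x‖ := norm_le_pi_norm x j
    have h3 := abs_le.1 h2
    rw [Real.norm_eq_abs, abs_le]
    constructor <;> linarith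
  refine ⟨l, ⟨hl, ?_⟩, ?_⟩
  · intro j
    have h1 := abs_le.1 (hc j)
    exact ⟨hδ l ⟨hl, hnorm⟩ j (by linarith), by linarith⟩
  · intro l' hl'
    by_contra hne
    have h1 := hsep (l' - l) (Λ.sub_mem hl'.1 hl) (sub_ne_zero.2 hne)
    have h2 : ‖l' - l‖ < 1 := by
      rw [pi_norm_lt_iff one_pos]
      intro j
      have h3 := abs_le.1 (hc j)
      have h4 := hδ l ⟨hl, hnorm⟩ j (by linarith)
      have h5 := hl'.2 j
      rw [Pi.sub_apply, Real.norm_eq_abs, abs_lt]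
      constructor <;> linarith [h5.1, h5.2]
    linarith

theorem line_coset (E : Set ℝ) (h : ∀ y : ℝ, ∃! e, e ∈ E ∧ y - e ∈ Set.Ico (0 : ℝ) 1) :
    ∃ e0 : ℝ, ∀ e, e ∈ E ↔ ∃ k : ℤ, e = e0 + k := by
  have huniq : ∀ e ∈ E, ∀ e' ∈ E, e ≤ e' → e' < e + 1 → e' = e := by
    intro e he e' he' h1 h2
    exact (h e').unique ⟨he', by simp⟩ ⟨he, by linarith, by linarith⟩
  have hup : ∀ e ∈ E, e + 1 ∈ E := by
    intro e he
    obtain ⟨μ, ⟨hμ, h1, h2⟩, -⟩ := h (e + 1)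
    by_cases h3 : μ < e + 1
    · have := huniq e he μ hμ (by linarith) h3
      linarith
    · have : μ = e + 1 := by linarith
      rwa [this] at hμ
  have hdown : ∀ e ∈ E, e - 1 ∈ E := by
    intro e he
    obtain ⟨μ, ⟨hμ, h1, h2⟩, -⟩ := h (e - 1)
    have := huniq (μ + 1) (hup μ hμ) e he (by linarith) (by linarith)
    have h3 : e - 1 = μ := by linarith
    rwa [h3]
  obtain ⟨e0, ⟨he0, -⟩, -⟩ := h 0
  have hall : ∀ k : ℤ, e0 + k ∈ E := by
    intro k
    induction k using Int.induction_on with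
    | zero => simpa using he0
    | succ k ih =>
      have := hup _ ih
      push_cast at this ⊢
      rwa [← add_assoc]
    | pred k ih =>
      have := hdown _ ih
      push_cast at this ⊢
      rwa [← add_sub_assoc]
  refine ⟨e0, fun e => ⟨fun he => ⟨⌊e - e0⌋, ?_⟩, ?_⟩⟩
  · refine huniq _ (hall _) e he ?_ ?_
    · linarith [Int.floor_le (e - e0)]
    · linarith [Int.lt_floor_add_one (e - e0)]
  · rintro ⟨k, rfl⟩
    exact hall k

theorem tiles_update (T : Fin n → Set ℝ) (i : Fin n) (hi : T i = Set.Ico 0 1) (hT : Tiles Λ T)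
    (T' : Set ℝ) (hT' : ∀ y : ℝ, ∃! k : ℤ, y - k ∈ T') : Tiles Λ (Function.update T i T') := by
  intro x
  let L : Set (Fin n → ℝ) := {l | l ∈ Λ ∧ ∀ j, j ≠ i → x j - l j ∈ T j}
  have hL : ∀ y : ℝ, ∃! l, l ∈ L ∧ y - l i ∈ Set.Ico (0 : ℝ) 1 := by
    intro y
    refine (existsUnique_congr ?_).1 (hT (Function.update x i y))
    intro l
    constructor
    · rintro ⟨h1, h2⟩
      refine ⟨⟨h1, fun j hj => ?_⟩, ?_⟩
      · simpa [hj] using h2 j
      · simpa [hi] using h2 i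
    · rintro ⟨⟨h1, h2⟩, h3⟩
      refine ⟨h1, fun j => ?_⟩
      by_cases hj : j = i
      · subst hj
        simpa [hi] using h3
      · simpa [hj] using h2 j hj
  have hinj : ∀ l ∈ L, ∀ l' ∈ L, l i = l' i → l = l' := by
    intro l hl l' hl' h
    exact (hL (l i)).unique ⟨hl, by simp⟩ ⟨hl', by simp [h]⟩
  obtain ⟨e0, he0⟩ := line_coset ((fun l => l i) '' L) (by
    intro y
    obtain ⟨l, ⟨hl, hy⟩, hu⟩ := hL y
    refine ⟨l i, ⟨⟨l, hl, rfl⟩, hy⟩, ?_⟩
    rintro _ ⟨⟨l', hl', rfl⟩, hy'⟩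
    rw [hu l' ⟨hl', hy'⟩])
  obtain ⟨k, hk, hku⟩ := hT' (x i - e0)
  obtain ⟨l, hl, hlk⟩ := (he0 (e0 + k)).2 ⟨k, rfl⟩
  have hlk' : l i = e0 + k := hlk
  refine ⟨l, ⟨hl.1, fun j => ?_⟩, ?_⟩
  · by_cases hj : j = i
    · subst hj
      rw [Function.update_self, hlk', ← sub_sub]
      exact hk
    · rw [Function.update_of_ne hj]
      exact hl.2 j hj
  · rintro l' ⟨h1, h2⟩
    have hl' : l' ∈ L := ⟨h1, fun j hj => by simpa [hj] using h2 j⟩
    obtain ⟨k', hk'⟩ := (he0 (l' i)).1 ⟨l', hl', rfl⟩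
    have h3 := h2 i
    rw [Function.update_self, hk', ← sub_sub] at h3
    refine hinj l' hl' l hl ?_
    rw [hk', hlk', hku k' h3]

theorem tiles_all (hT : Tiles Λ (fun _ => Set.Ico 0 1))
    (T' : Set ℝ) (hT' : ∀ y : ℝ, ∃! k : ℤ, y - k ∈ T') : Tiles Λ (fun _ => T') := by
  classical
  have key : ∀ S : Finset (Fin n), Tiles Λ (fun j => if j ∈ S then T' else Set.Ico 0 1) := by
    intro S
    induction S using Finset.induction_on with
    | empty => simpa using hT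
    | insert i S hi ih =>
      have := tiles_update Λ _ i (by simp [hi]) ih T' hT'
      convert this using 1
      funext j
      by_cases hj : j = i
      · subst hj; simp
      · simp [hj]
  simpa using key Finset.univ

theorem exists_psi (R : Set ℝ) (hR : R.Finite) {η : ℝ} (hη : 0 < η) :
    ∃ ψ : ℝ →ₗ[ℚ] ℚ, ψ 1 = 1 ∧ ∀ r ∈ R, |(ψ r : ℝ) - r| ≤ η := by
  classical
  have hli : LinearIndepOn ℚ id ({1} : Set ℝ) := LinearIndepOn.singleton one_ne_zero
  let b := Module.Basis.extend hli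
  have h1 : (1 : ℝ) ∈ hli.extend (Set.subset_univ _) := hli.subset_extend _ rfl
  have happ : ∀ δ : ℝ, 0 < δ → ∀ r : ℝ, ∃ q : ℚ, |(q : ℝ) - r| ≤ δ ∧ (r = 1 → q = 1) := by
    intro δ hδ r
    by_cases hr : r = 1
    · exact ⟨1, by simp [hr, hδ.le], fun _ => rfl⟩
    · obtain ⟨q, hq⟩ := exists_rat_near r hδ
      exact ⟨q, by rw [abs_sub_comm]; exact hq.le, fun h => absurd h hr⟩
  let C : ℝ → ℝ := fun r => ∑ i ∈ (b.repr r).support, |((b.repr r i : ℚ) : ℝ)|
  obtain ⟨M, hM⟩ := (hR.image C).bddAbove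
  have hM0 : 0 < max M 1 := lt_max_of_lt_right one_pos
  choose q hq hq1 using happ (η / max M 1) (div_pos hη hM0)
  refine ⟨b.constr ℚ (fun i => q (i : ℝ)), ?_, ?_⟩
  · have h2 : b ⟨1, h1⟩ = 1 := Module.Basis.extend_apply_self hli _
    exact (congrArg (b.constr ℚ (fun i => q (i : ℝ))) h2).symm.trans
      ((b.constr_basis ℚ (fun i => q (i : ℝ)) ⟨1, h1⟩).trans (hq1 1 rfl))
  · intro r hr
    have h2 : r = ∑ i ∈ (b.repr r).support, ((b.repr r i : ℚ) : ℝ) * (i : ℝ) := by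
      conv_lhs => rw [← b.linearCombination_repr r, Finsupp.linearCombination_apply, Finsupp.sum]
      refine Finset.sum_congr rfl fun i _ => ?_
      rw [Module.Basis.extend_apply_self, Rat.smul_def]
    have h3 : ((b.constr ℚ (fun i => q (i : ℝ)) r : ℚ) : ℝ) =
        ∑ i ∈ (b.repr r).support, ((b.repr r i : ℚ) : ℝ) * (q (i : ℝ) : ℝ) := by
      rw [Module.Basis.constr_apply, Finsupp.sum]
      push_cast
      simp
    rw [h3]
    nth_rewrite 3 [h2]
    rw [← Finset.sum_sub_distrib]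
    refine (Finset.abs_sum_le_sum_abs _ _).trans ?_
    have h4 : ∑ i ∈ (b.repr r).support,
        |((b.repr r i : ℚ) : ℝ) * (q (i : ℝ) : ℝ) - ((b.repr r i : ℚ) : ℝ) * (i : ℝ)|
        ≤ C r * (η / max M 1) := by
      rw [Finset.sum_mul]
      refine Finset.sum_le_sum fun i _ => ?_
      rw [← mul_sub, abs_mul]
      exact mul_le_mul_of_nonneg_left (hq _) (abs_nonneg _)
    refine h4.trans ?_
    have h5 : C r ≤ max M 1 := (hM ⟨r, hr, rfl⟩).trans (le_max_left _ _)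
    calc C r * (η / max M 1) ≤ max M 1 * (η / max M 1) :=
          mul_le_mul_of_nonneg_right h5 (div_pos hη hM0).le
      _ = η := by field_simp

theorem small_step (hcov : ∀ x, ∃ l ∈ Λ, ‖x - l‖ ≤ 1 / 2) (N : ℕ) (l : Fin n → ℝ)
    (hN : ‖l‖ ≤ (N : ℝ) + 3) : ∃ μ ∈ Λ, ‖μ‖ ≤ (N : ℝ) + 2 ∧ ‖l - μ‖ ≤ 2 := by
  have hN0 : (0 : ℝ) < (N : ℝ) + 3 := by positivity
  let c : ℝ := 3 / (2 * ((N : ℝ) + 3))
  have hc0 : 0 ≤ c := by positivity
  have hc1 : c ≤ 1 := by
    rw [div_le_one (by positivity)]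
    have : (0 : ℝ) ≤ N := Nat.cast_nonneg N
    linarith
  have hcN : c * ((N : ℝ) + 3) = 3 / 2 := by
    simp only [c]
    field_simp
  obtain ⟨μ, hμ, hx⟩ := hcov ((1 - c) • l)
  have h1 : ‖(1 - c) • l‖ ≤ (N : ℝ) + 3 / 2 := by
    rw [norm_smul, Real.norm_of_nonneg (by linarith)]
    have := mul_le_mul_of_nonneg_left hN (show 0 ≤ 1 - c by linarith)
    linarith
  have h2 : ‖c • l‖ ≤ 3 / 2 := by
    rw [norm_smul, Real.norm_of_nonneg hc0]
    have := mul_le_mul_of_nonneg_left hN hc0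
    linarith
  refine ⟨μ, hμ, ?_, ?_⟩
  · have h3 : μ = (1 - c) • l - ((1 - c) • l - μ) := by abel
    have h4 := norm_sub_le ((1 - c) • l) ((1 - c) • l - μ)
    rw [← h3] at h4
    linarith
  · have h3 : l - μ = c • l + ((1 - c) • l - μ) := by
      rw [sub_smul, one_smul]; abel
    have h4 := norm_add_le (c • l) ((1 - c) • l - μ)
    rw [← h3] at h4
    linarith

theorem prod_mem_pr {G ι : Type} [CommGroup G] [DecidableEq G] (a : ι → G) (m : ℕ)
    (k : ι → Fin m) (t : Multiset ι) :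
    (t.map fun j => a j ^ (k j : ℕ)).prod ∈ pr (t.map fun j => (a j, m)) := by
  induction t using Multiset.induction_on with
  | empty => exact Finset.mem_singleton.2 rfl
  | cons j t ih =>
    rw [Multiset.map_cons, Multiset.map_cons, Multiset.prod_cons, pr_cons]
    exact Finset.mul_mem_mul (Finset.mem_image.2 ⟨k j, by simp, rfl⟩) ih

theorem add_hajos {A : Type} [AddCommGroup A] [Finite A] (hn : 0 < n) (m : ℕ) (hm : 1 < m)
    (a : Fin n → A) (hsurj : ∀ g : A, ∃ k : Fin n → Fin m, g = ∑ j, (k j : ℕ) • a j)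
    (hcard : Nat.card A = m ^ n) : ∃ j, m • a j = 0 := by
  classical
  have : Fintype (Multiplicative A) := Fintype.ofFinite _
  let s : Multiset (Multiplicative A × ℕ) :=
    (Finset.univ : Finset (Fin n)).val.map fun j => (Multiplicative.ofAdd (a j), m)
  have hwt : wt s = m ^ n := by
    simp only [wt, s, Multiset.map_map, Function.comp_def, Multiset.map_const',
      Multiset.prod_replicate, Finset.card_val, Finset.card_univ, Fintype.card_fin]
  have hall : ∀ g, g ∈ pr s := by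
    intro g
    obtain ⟨k, hk⟩ := hsurj g.toAdd
    have h1 : g = ∏ j, Multiplicative.ofAdd (a j) ^ (k j : ℕ) := by
      apply Multiplicative.toAdd.injective
      rw [hk, toAdd_prod]
      simp
    rw [h1]
    exact prod_mem_pr _ m k _
  have hc : (pr s).card = wt s := by
    rw [hwt, Finset.eq_univ_iff_forall.2 hall, Finset.card_univ, ← Nat.card_eq_fintype_card,
      ← hcard]
    rfl
  obtain ⟨x, hx, hx1⟩ := hajos _ s rfl (by
    intro h
    have : (Multiplicative.ofAdd (a ⟨0, hn⟩), m) ∈ s :=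
      Multiset.mem_map.2 ⟨⟨0, hn⟩, by simp, rfl⟩
    rw [h] at this
    simp at this) (by
    intro x hx
    obtain ⟨j, -, rfl⟩ := Multiset.mem_map.1 hx
    exact hm) ⊤ (fun g => ⟨fun _ => trivial, fun _ => hall g⟩) hc
  obtain ⟨j, -, rfl⟩ := Multiset.mem_map.1 hx
  exact ⟨j, by simpa using congrArg Multiplicative.toAdd hx1⟩

/-- A subgroup of `ℤ ^ n` for which the box `[0, m) ^ n` is a set of representatives contains
`m` times a basis vector. -/
theorem int_hajos (hn : 0 < n) (m : ℕ) (hm : 1 < m) (W : AddSubgroup (Fin n → ℤ))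
    (hW : ∀ z : Fin n → ℤ, ∃! w, w ∈ W ∧ ∀ j, 0 ≤ z j - w j ∧ z j - w j < m) :
    ∃ j : Fin n, Pi.single j (m : ℤ) ∈ W := by
  classical
  let π : (Fin n → Fin m) → (Fin n → ℤ) ⧸ W := fun k => ((fun j => ((k j : ℕ) : ℤ)) : Fin n → ℤ)
  have hbij : Function.Bijective π := by
    constructor
    · intro k k' h
      have h1 := QuotientAddGroup.eq.1 h
      have h2 := (hW (fun j => ((k' j : ℕ) : ℤ))).unique (y₁ := 0) ⟨W.zero_mem, fun j => by
        have := (k' j).isLt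
        simp only [Pi.zero_apply, sub_zero]
        omega⟩ ⟨h1, fun j => by
        have := (k j).isLt
        simp only [Pi.add_apply, Pi.neg_apply]
        omega⟩
      funext j
      have h3 := congrFun h2 j
      simp only [Pi.add_apply, Pi.neg_apply, Pi.zero_apply] at h3
      exact Fin.ext (by omega)
    · intro γ
      obtain ⟨z, rfl⟩ := QuotientAddGroup.mk_surjective γ
      obtain ⟨w, ⟨hw, hz⟩, -⟩ := hW z
      refine ⟨fun j => ⟨(z j - w j).toNat, by have := hz j; omega⟩, ?_⟩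
      refine QuotientAddGroup.eq.2 ?_
      convert hw using 1
      funext j
      have := hz j
      simp only [Pi.add_apply, Pi.neg_apply]
      omega
  have hfin : Finite ((Fin n → ℤ) ⧸ W) := Finite.of_surjective π hbij.2
  obtain ⟨j, hj⟩ := add_hajos hn m hm
    (fun j => ((Pi.single j (1 : ℤ) : Fin n → ℤ) : (Fin n → ℤ) ⧸ W)) (by
      intro g
      obtain ⟨k, rfl⟩ := hbij.2 g
      refine ⟨k, ?_⟩
      have h2 : ((fun j => ((k j : ℕ) : ℤ)) : Fin n → ℤ) =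
          ∑ j, (k j : ℕ) • (Pi.single j (1 : ℤ) : Fin n → ℤ) := by
        funext i
        simp [Finset.sum_apply, Pi.single_apply]
      simp only [π, h2]
      rw [← QuotientAddGroup.mk'_apply, map_sum]
      simp) (by
      rw [← Nat.card_eq_of_bijective π hbij]
      simp)
  refine ⟨j, ?_⟩
  rw [← QuotientAddGroup.mk_nsmul, QuotientAddGroup.eq_zero_iff] at hj
  convert hj using 1
  funext i
  simp [Pi.single_apply]

/-- Approximate form of the theorem of Hajos on lattice tilings by cubes. -/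
theorem approx_hajos (hn : 0 < n) (hsep : ∀ l ∈ Λ, l ≠ 0 → 1 ≤ ‖l‖)
    (hcov : ∀ x, ∃ l ∈ Λ, ‖x - l‖ ≤ 1 / 2) {η : ℝ} (hη : 0 < η) (hη1 : η ≤ 1 / 2) :
    ∃ j : Fin n, ∃ v ∈ Λ, ‖v - Pi.single j 1‖ ≤ η := by
  classical
  have hS := finite_ball Λ hsep 2
  have hR : (⋃ j : Fin n, (fun l => l j) '' {l : Fin n → ℝ | l ∈ Λ ∧ ‖l‖ ≤ 2}).Finite :=
    Set.finite_iUnion fun j => hS.image _
  obtain ⟨ψ, hψ1, hψ⟩ := exists_psi _ hR hη
  have hψq : ∀ q : ℚ, ψ (q : ℝ) = q := by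
    intro q
    have : (q : ℝ) = q • (1 : ℝ) := by simp
    rw [this, map_smul, hψ1, smul_eq_mul, mul_one]
  have hψz : ∀ k : ℤ, ψ (k : ℝ) = k := by
    intro k
    have := hψq k
    simpa using this
  obtain ⟨m, hm, hden⟩ : ∃ m : ℕ, 1 < m ∧ ∀ l ∈ Λ, ‖l‖ ≤ 2 → ∀ j, ∃ z : ℤ, (m : ℚ) * ψ (l j) = z := by
    refine ⟨2 * ∏ r ∈ hR.toFinset, (ψ r).den, ?_, ?_⟩
    · have : 0 < ∏ r ∈ hR.toFinset, (ψ r).den := Finset.prod_pos fun r _ => (ψ r).den_pos
      omega
    · intro l hl hl2 j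
      have hmem : l j ∈ hR.toFinset := by
        rw [Set.Finite.mem_toFinset]
        exact Set.mem_iUnion.2 ⟨j, l, ⟨hl, hl2⟩, rfl⟩
      obtain ⟨c, hc⟩ := Finset.dvd_prod_of_mem (fun r => (ψ r).den) hmem
      refine ⟨2 * c * (ψ (l j)).num, ?_⟩
      rw [hc]
      push_cast
      rw [← Rat.mul_den_eq_num]
      ring
  let φ : (Fin n → ℝ) → (Fin n → ℝ) := fun l j => (ψ (l j) : ℝ)
  have hφsub : ∀ l l', φ (l - l') = φ l - φ l' := by
    intro l l'
    funext j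
    simp [φ]
  have hind : ∀ N : ℕ, ∀ l ∈ Λ, ‖l‖ ≤ (N : ℝ) + 2 →
      (∀ j, ∃ z : ℤ, (m : ℚ) * ψ (l j) = z) ∧ ‖φ l - l‖ ≤ η * (N + 1) := by
    have hbase : ∀ l ∈ Λ, ‖l‖ ≤ 2 → ‖φ l - l‖ ≤ η := by
      intro l hl hl2
      rw [pi_norm_le_iff_of_nonneg hη.le]
      intro j
      exact hψ _ (Set.mem_iUnion.2 ⟨j, l, ⟨hl, hl2⟩, rfl⟩)
    intro N
    induction N with
    | zero =>
      intro l hl hl2
      have hl2' : ‖l‖ ≤ 2 := by simpa using hl2
      exact ⟨hden l hl hl2', by simpa using hbase l hl hl2'⟩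
    | succ N ih =>
      intro l hl hlN
      obtain ⟨μ, hμ, hμN, hlμ⟩ := small_step Λ hcov N l (by push_cast at hlN; linarith)
      obtain ⟨h1, h2⟩ := ih μ hμ hμN
      have h3 := hden _ (Λ.sub_mem hl hμ) hlμ
      have h4 := hbase _ (Λ.sub_mem hl hμ) hlμ
      refine ⟨fun j => ?_, ?_⟩
      · obtain ⟨z, hz⟩ := h1 j
        obtain ⟨z', hz'⟩ := h3 j
        refine ⟨z + z', ?_⟩
        rw [Pi.sub_apply, map_sub] at hz'
        push_cast
        linarith
      · have h5 : φ l - l = (φ μ - μ) + (φ (l - μ) - (l - μ)) := by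
          rw [hφsub]; abel
        have h6 := norm_add_le (φ μ - μ) (φ (l - μ) - (l - μ))
        rw [← h5] at h6
        push_cast
        linarith
  have hint : ∀ l ∈ Λ, ∀ j, ∃ z : ℤ, (m : ℚ) * ψ (l j) = z := by
    intro l hl
    obtain ⟨N, hN⟩ := exists_nat_ge ‖l‖
    exact (hind N l hl (by linarith)).1
  have hT := tiles_all Λ (tiles_unit Λ hsep hcov) {y | 0 ≤ ψ y ∧ ψ y < 1} (by
    intro y
    refine ⟨⌊ψ y⌋, ?_, ?_⟩
    · simp only [Set.mem_ofPred_eq, map_sub, hψz]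
      exact ⟨by linarith [Int.floor_le (ψ y)], by linarith [Int.lt_floor_add_one (ψ y)]⟩
    · intro k hk
      simp only [Set.mem_ofPred_eq, map_sub, hψz] at hk
      exact (Int.floor_eq_iff.2 ⟨by linarith [hk.1], by linarith [hk.2]⟩).symm)
  let W : AddSubgroup (Fin n → ℤ) :=
    { carrier := {w | ∃ l ∈ Λ, ∀ j, (m : ℚ) * ψ (l j) = w j}
      zero_mem' := ⟨0, Λ.zero_mem, by simp⟩
      add_mem' := by
        rintro a b ⟨l, hl, h⟩ ⟨l', hl', h'⟩
        refine ⟨l + l', Λ.add_mem hl hl', fun j => ?_⟩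
        simp [mul_add, h j, h' j]
      neg_mem' := by
        rintro a ⟨l, hl, h⟩
        refine ⟨-l, Λ.neg_mem hl, fun j => ?_⟩
        simp [h j] }
  have hm0 : (0 : ℚ) < m := by exact_mod_cast (by omega : 0 < m)
  have hconv : ∀ (z w : ℤ) (t : ℝ), (m : ℚ) * ψ t = w →
      ((0 ≤ ψ ((((z : ℚ) / m : ℚ) : ℝ) - t) ∧ ψ ((((z : ℚ) / m : ℚ) : ℝ) - t) < 1) ↔
        (0 ≤ z - w ∧ z - w < m)) := by
    intro z w t h
    have h1 : ψ ((((z : ℚ) / m : ℚ) : ℝ) - t) = ((z - w : ℤ) : ℚ) / m := by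
      rw [map_sub, hψq]
      push_cast
      rw [← h]
      field_simp
    rw [h1, le_div_iff₀ hm0, div_lt_one hm0, zero_mul]
    exact ⟨fun h => ⟨by exact_mod_cast h.1, by exact_mod_cast h.2⟩,
      fun h => ⟨by exact_mod_cast h.1, by exact_mod_cast h.2⟩⟩
  obtain ⟨j, l, hl, hlj⟩ := int_hajos hn m hm W (by
    intro z
    obtain ⟨l, ⟨hl, hz⟩, hu⟩ := hT (fun j => (((z j : ℚ) / m : ℚ) : ℝ))
    choose w hw using hint l hl
    refine ⟨w, ⟨⟨l, hl, hw⟩, fun j => (hconv _ _ _ (hw j)).1 (hz j)⟩, ?_⟩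
    rintro w' ⟨⟨l', hl', hw'⟩, hz'⟩
    have := hu l' ⟨hl', fun j => (hconv _ _ _ (hw' j)).2 (hz' j)⟩
    funext j
    have h1 := hw' j
    rw [this, hw j] at h1
    exact_mod_cast h1.symm)
  have hφl : φ l = Pi.single j 1 := by
    funext i
    have h1 := hlj i
    by_cases hi : i = j
    · subst hi
      simp only [Pi.single_eq_same, Int.cast_natCast] at h1
      have : ψ (l i) = 1 := mul_left_cancel₀ hm0.ne' (by rw [h1, mul_one])
      simp [φ, this]
    · simp only [Pi.single_eq_of_ne hi, Int.cast_zero] at h1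
      have : ψ (l i) = 0 := (mul_eq_zero.1 h1).resolve_left hm0.ne'
      simp [φ, this, hi]
  have hex : ∃ N : ℕ, ‖l‖ ≤ (N : ℝ) + 2 := by
    obtain ⟨N, hN⟩ := exists_nat_ge ‖l‖
    exact ⟨N, by linarith⟩
  have h1 := (hind _ l hl (Nat.find_spec hex)).2
  have hN0 : Nat.find hex = 0 := by
    by_contra h0
    obtain ⟨k, hk⟩ := Nat.exists_eq_succ_of_ne_zero h0
    have h2 := Nat.find_min hex (show k < Nat.find hex by omega)
    rw [hk, hφl] at h1
    have h3 : ‖l‖ ≤ ‖(Pi.single j 1 : Fin n → ℝ)‖ + ‖Pi.single j 1 - l‖ := by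
      have := norm_sub_le (Pi.single j 1 : Fin n → ℝ) (Pi.single j 1 - l)
      simpa using this
    rw [Pi.norm_single, norm_one] at h3
    push_cast at h1
    have h4 : (0 : ℝ) ≤ k := Nat.cast_nonneg k
    have h5 := mul_le_mul_of_nonneg_right hη1 (show (0 : ℝ) ≤ (k : ℝ) + 1 + 1 by linarith)
    apply h2
    linarith
  rw [hN0, hφl, norm_sub_rev] at h1
  exact ⟨j, l, hl, by simpa using h1⟩

end Lattice

end Pool.Agent.H477Z.Kel
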