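import Pool.Agent.H477Z.Kel.Defs
import Pool.Agent.H477Z.Kel.Lattice
import Pool.Agent.H477Z.Kel.Clique

set_option autoImplicit false

namespace Pool.Agent.H477Z.Kel

open Filter Topology

variable {n : ℕ}

/-- the linear map whose sup norm is the largest coordinate plus `ε` times the second largest -/
def emb (n : ℕ) (ε : ℝ) : (Fin n → ℝ) →ₗ[ℝ] (Fin n × Fin n × Bool → ℝ) where
  toFun x p := x p.1 + (if p.1 = p.2.1 then 0 else if p.2.2 then ε else -ε) * x p.2.1
  map_add' x y := by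
    funext p
    simp only [Pi.add_apply]
    ring
  map_smul' c x := by
    funext p
    simp only [Pi.smul_apply, smul_eq_mul, RingHom.id_apply]
    ring

theorem emb_apply (ε : ℝ) (x : Fin n → ℝ) (p : Fin n × Fin n × Bool) :
    emb n ε x p = x p.1 + (if p.1 = p.2.1 then 0 else if p.2.2 then ε else -ε) * x p.2.1 := rfl

theorem abs_le_emb (ε : ℝ) (x : Fin n → ℝ) (i : Fin n) : |x i| ≤ ‖emb n ε x‖ := by
  have := norm_le_pi_norm (emb n ε x) (i, i, true)
  simpa [emb_apply] using this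

theorem norm_le_emb (ε : ℝ) (x : Fin n → ℝ) : ‖x‖ ≤ ‖emb n ε x‖ := by
  rw [pi_norm_le_iff_of_nonneg (norm_nonneg _)]
  exact abs_le_emb ε x

theorem pair_le_emb {ε : ℝ} (_hε : 0 ≤ ε) (x : Fin n → ℝ) {i j : Fin n} (hij : i ≠ j) :
    |x i| + ε * |x j| ≤ ‖emb n ε x‖ := by
  have h1 := norm_le_pi_norm (emb n ε x) (i, j, true)
  have h2 := norm_le_pi_norm (emb n ε x) (i, j, false)
  simp only [emb_apply, hij, if_false, if_true, Real.norm_eq_abs, Bool.false_eq_true] at h1 h2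
  have h3 := abs_le.1 h1
  have h4 := abs_le.1 h2
  rcases abs_cases (x i) with h | h <;> rcases abs_cases (x j) with h' | h' <;>
    rw [h.1, h'.1] <;> linarith [h3.1, h3.2, h4.1, h4.2]

theorem emb_entry {ε : ℝ} (hε : 0 ≤ ε) (x : Fin n → ℝ) (p : Fin n × Fin n × Bool) :
    |emb n ε x p| ≤ |x p.1| + (if p.1 = p.2.1 then 0 else ε * |x p.2.1|) := by
  rw [emb_apply]
  refine (abs_add_le _ _).trans ?_
  rw [abs_mul]
  split_ifs <;> simp [abs_of_nonneg hε]

theorem emb_le {ε : ℝ} (hε : 0 ≤ ε) (x : Fin n → ℝ) : ‖emb n ε x‖ ≤ (1 + ε) * ‖x‖ := by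
  rw [pi_norm_le_iff_of_nonneg (by positivity)]
  intro p
  refine (emb_entry hε x p).trans ?_
  have h1 : |x p.1| ≤ ‖x‖ := norm_le_pi_norm x _
  have h2 : |x p.2.1| ≤ ‖x‖ := norm_le_pi_norm x _
  have h3 := mul_le_mul_of_nonneg_left h2 hε
  have h4 := mul_nonneg hε (norm_nonneg x)
  split_ifs <;> linarith

/-- a subgroup containing a vector close to twice a basis vector has a deep hole -/
theorem deep_hole {ε : ℝ} (hε : 0 < ε) (hε1 : ε ≤ 1 / 100) (Λ : AddSubgroup (Fin n → ℝ))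
    (hsep : ∀ l ∈ Λ, l ≠ 0 → 2 ≤ ‖emb n ε l‖) (i j : Fin n) (hij : i ≠ j)
    (v : Fin n → ℝ) (hv : v ∈ Λ) (hvi : ‖v - Pi.single i 2‖ ≤ 1 / 10) :
    ¬ ∀ x, ∃ l ∈ Λ, ‖emb n ε (x - l)‖ ≤ 1 + ε / 2 := by
  intro hcov
  have hc : ∀ k, |v k - (Pi.single i 2 : Fin n → ℝ) k| ≤ 1 / 10 := fun k =>
    (norm_le_pi_norm (v - Pi.single i 2) k).trans hvi
  have hci : |v i - 2| ≤ 1 / 10 := by simpa using hc i
  have hck : ∀ k, k ≠ i → |v k| ≤ 1 / 10 := fun k hk => by simpa [hk] using hc k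
  obtain ⟨hi1, hi2⟩ := abs_le.1 hci
  have hv0 : v ≠ 0 := by
    rintro rfl
    simp only [Pi.zero_apply] at hi1
    linarith
  have hvi2 : 2 - ε / 10 ≤ v i := by
    by_contra hlt
    push Not at hlt
    have h1 := hsep v hv hv0
    have h2 : ‖emb n ε v‖ < 2 := by
      rw [pi_norm_lt_iff two_pos]
      rintro ⟨a, b, s⟩
      refine lt_of_le_of_lt (emb_entry hε.le v _) ?_
      have habs : |v i| = v i := abs_of_pos (by linarith)
      by_cases ha : a = i
      · subst ha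
        simp only [habs]
        split_ifs with hb
        · linarith
        · have := mul_le_mul_of_nonneg_left (hck b (Ne.symm hb)) hε.le
          linarith
      · have h3 := hck a ha
        have h4 : |v b| ≤ 3 := by
          by_cases hb : b = i
          · rw [hb, habs]; linarith
          · linarith [hck b hb]
        have h5 := mul_le_mul_of_nonneg_left h4 hε.le
        simp only
        split_ifs <;> linarith
    linarith
  let x : Fin n → ℝ := (1 / 2 : ℝ) • v + Pi.single j (3 / 4)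
  have hxi : x i = v i / 2 := by simp [x, hij]; ring
  have hxj : x j = v j / 2 + 3 / 4 := by simp [x]; ring
  have hxk : ∀ k, k ≠ j → x k = v k / 2 := fun k hk => by simp [x, hk]; ring
  obtain ⟨hj1, hj2⟩ := abs_le.1 (hck j hij.symm)
  obtain ⟨l, hl, hxl⟩ := hcov x
  have hl0 : l ≠ 0 := by
    rintro rfl
    have h1 := pair_le_emb hε.le (x - 0) hij
    rw [sub_zero] at h1 hxl
    rw [hxi, hxj, abs_of_pos (by linarith), abs_of_pos (by linarith)] at h1
    nlinarith
  have hlv : l - v ≠ 0 := by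
    intro h
    have h0 : l = v := sub_eq_zero.1 h
    subst h0
    have h1 := pair_le_emb hε.le (x - l) hij
    rw [Pi.sub_apply, Pi.sub_apply, hxi, hxj, abs_of_neg (by linarith),
      abs_of_pos (by linarith)] at h1
    nlinarith
  have hnear : ∀ k, |x k - l k| ≤ 1 + ε / 2 := fun k => (abs_le_emb ε (x - l) k).trans hxl
  have hbig : ∀ w ∈ Λ, w ≠ 0 → ∃ k, 19 / 10 ≤ |w k| := by
    intro w hw hw0
    by_contra hcon
    push Not at hcon
    have h1 : ‖w‖ < 19 / 10 := (pi_norm_lt_iff (by norm_num)).2 hcon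
    have h2 := (hsep w hw hw0).trans (emb_le hε.le w)
    nlinarith [norm_nonneg w]
  obtain ⟨a, ha⟩ := hbig l hl hl0
  obtain ⟨b, hb⟩ := hbig (l - v) (Λ.sub_mem hl hv) hlv
  rw [Pi.sub_apply] at hb
  have hother : ∀ k, k ≠ i → |l k| < 19 / 10 ∧ |l k - v k| < 19 / 10 := by
    intro k hk
    obtain ⟨h1, h2⟩ := abs_le.1 (hnear k)
    obtain ⟨h3, h4⟩ := abs_le.1 (hck k hk)
    rw [abs_lt, abs_lt]
    by_cases hkj : k = j
    · subst hkj
      rw [hxj] at h1 h2
      refine ⟨⟨?_, ?_⟩, ?_, ?_⟩ <;> linarith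
    · rw [hxk k hkj] at h1 h2
      refine ⟨⟨?_, ?_⟩, ?_, ?_⟩ <;> linarith
  have hai : a = i := by
    by_contra h
    linarith [(hother a h).1]
  have hbi : b = i := by
    by_contra h
    linarith [(hother b h).2]
  rw [hai] at ha
  rw [hbi] at hb
  obtain ⟨h1, h2⟩ := abs_le.1 (hnear i)
  rw [hxi] at h1 h2
  rcases le_abs.1 ha with h3 | h3 <;> rcases le_abs.1 hb with h4 | h4 <;> linarith

/-- for some small `ε` no subgroup is `2`-separated and `(1 + ε / 2)`-dense -/
theorem exists_eps (hn : 1 < n) : ∃ ε : ℝ, 0 < ε ∧ ε ≤ 1 ∧ ∀ Λ : AddSubgroup (Fin n → ℝ),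
    (∀ l ∈ Λ, l ≠ 0 → 2 ≤ ‖emb n ε l‖) → ¬ ∀ x, ∃ l ∈ Λ, ‖emb n ε (x - l)‖ ≤ 1 + ε / 2 := by
  by_contra hcon
  push Not at hcon
  let e : ℕ → ℝ := fun k => 1 / ((k : ℝ) + 1)
  have he0 : ∀ k, 0 < e k := fun k => Nat.one_div_pos_of_nat
  have he1 : ∀ k, e k ≤ 1 := fun k => by
    simp only [e]
    rw [div_le_one (by positivity)]
    linarith [(Nat.cast_nonneg k : (0 : ℝ) ≤ k)]
  choose L hsep hcov using fun k => hcon (e k) (he0 k) (he1 k)
  let U : Ultrafilter ℕ := Filter.hyperfilter ℕ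
  have hU : (U : Filter ℕ) ≤ atTop := by
    rw [← Nat.cofinite_eq_atTop]
    exact hyperfilter_le_cofinite
  have helim : Tendsto e U (𝓝 0) := tendsto_one_div_add_atTop_nhds_zero_nat.mono_left hU
  let Λ : AddSubgroup (Fin n → ℝ) :=
    { carrier := {y | ∃ l : ℕ → Fin n → ℝ, (∀ k, l k ∈ L k) ∧ Tendsto l U (𝓝 ((2 : ℝ) • y))}
      zero_mem' := ⟨fun _ => 0, fun k => (L k).zero_mem, by simp⟩
      add_mem' := by
        rintro a b ⟨l, hl, h⟩ ⟨l', hl', h'⟩
        exact ⟨fun k => l k + l' k, fun k => (L k).add_mem (hl k) (hl' k), by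
          rw [smul_add]; exact h.add h'⟩
      neg_mem' := by
        rintro a ⟨l, hl, h⟩
        exact ⟨fun k => -l k, fun k => (L k).neg_mem (hl k), by
          rw [smul_neg]; exact h.neg⟩ }
  have hΛsep : ∀ y ∈ Λ, y ≠ 0 → 1 ≤ ‖y‖ := by
    rintro y ⟨l, hl, h⟩ hy
    have h2y : (2 : ℝ) • y ≠ 0 := smul_ne_zero two_ne_zero hy
    have h1 : ∀ᶠ k in (U : Filter ℕ), 2 ≤ (1 + e k) * ‖l k‖ := by
      filter_upwards [h.eventually_ne h2y] with k hk
      exact (hsep k _ (hl k) hk).trans (emb_le (he0 k).le _)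
    have h2 : Tendsto (fun k => (1 + e k) * ‖l k‖) U (𝓝 ((1 + 0) * ‖(2 : ℝ) • y‖)) :=
      (tendsto_const_nhds.add helim).mul h.norm
    have h3 := ge_of_tendsto h2 h1
    rw [norm_smul, Real.norm_ofNat] at h3
    linarith
  have hΛcov : ∀ x, ∃ y ∈ Λ, ‖x - y‖ ≤ 1 / 2 := by
    intro x
    choose l hl hxl using fun k => hcov k ((2 : ℝ) • x)
    have hb : ∀ k, ‖(2 : ℝ) • x - l k‖ ≤ 1 + e k / 2 := fun k => (norm_le_emb _ _).trans (hxl k)
    have hmem : ∀ k, l k ∈ Metric.closedBall ((2 : ℝ) • x) 2 := by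
      intro k
      rw [mem_closedBall_iff_norm']
      linarith [hb k, he1 k]
    obtain ⟨z, -, hz⟩ := (isCompact_closedBall ((2 : ℝ) • x) 2).ultrafilter_le_nhds (U.map l)
      (by
        rw [Ultrafilter.coe_map, le_principal_iff, mem_map]
        exact Eventually.of_forall hmem)
    have hz' : Tendsto l U (𝓝 z) := hz
    refine ⟨(1 / 2 : ℝ) • z, ⟨l, hl, by rwa [smul_smul, mul_one_div_cancel two_ne_zero, one_smul]⟩,
      ?_⟩
    have h1 : Tendsto (fun k => ‖(2 : ℝ) • x - l k‖) U (𝓝 ‖(2 : ℝ) • x - z‖) :=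
      (tendsto_const_nhds.sub hz').norm
    have h2 : Tendsto (fun k => 1 + e k / 2) U (𝓝 (1 + 0 / 2)) :=
      tendsto_const_nhds.add (helim.div_const 2)
    have h3 := le_of_tendsto_of_tendsto' h1 h2 hb
    have h4 : x - (1 / 2 : ℝ) • z = (1 / 2 : ℝ) • ((2 : ℝ) • x - z) := by
      rw [smul_sub, smul_smul, one_div_mul_cancel two_ne_zero, one_smul]
    rw [h4, norm_smul, Real.norm_of_nonneg (by norm_num)]
    linarith
  obtain ⟨i, v, ⟨l, hl, hlim⟩, hv⟩ := approx_hajos Λ (by omega) hΛsep hΛcov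
    (show (0 : ℝ) < 1 / 40 by norm_num) (by norm_num)
  obtain ⟨j, hj⟩ : ∃ j : Fin n, j ≠ i := by
    have : Nontrivial (Fin n) := Fin.nontrivial_iff_two_le.2 hn
    exact exists_ne i
  have h1 : ∀ᶠ k in (U : Filter ℕ), ‖l k - (2 : ℝ) • v‖ < 1 / 20 := by
    have := (tendsto_iff_norm_sub_tendsto_zero.1 hlim)
    exact this.eventually (eventually_lt_nhds (by norm_num))
  have h2 : ∀ᶠ k in (U : Filter ℕ), e k < 1 / 100 :=
    helim.eventually (eventually_lt_nhds (by norm_num))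
  obtain ⟨k, hk1, hk2⟩ := (h1.and h2).exists
  refine deep_hole (he0 k) hk2.le (L k) (hsep k) i j hj.symm (l k) (hl k) ?_ (hcov k)
  have h3 : l k - Pi.single i 2 = (l k - (2 : ℝ) • v) + (2 : ℝ) • (v - Pi.single i 1) := by
    funext a
    by_cases ha : a = i
    · subst ha; simp; ring
    · simp [ha]
  have h4 := norm_add_le (l k - (2 : ℝ) • v) ((2 : ℝ) • (v - Pi.single i 1))
  rw [← h3, norm_smul, Real.norm_ofNat] at h4
  linarith

theorem emb_injective (ε : ℝ) : Function.Injective (emb n ε) := by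
  rw [injective_iff_map_eq_zero]
  intro x hx
  have := norm_le_emb ε x
  rw [hx, norm_zero] at this
  exact norm_le_zero_iff.1 this

theorem main : ∃ (X : Type) (_ : NormedAddCommGroup X) (_ : NormedSpace ℝ X),
    Module.finrank ℝ X = 8 ∧ gamma X < gammaStar X := by
  obtain ⟨ε, hε, hε1, hno⟩ := exists_eps (n := 8) (by norm_num)
  let X := LinearMap.range (emb 8 ε)
  let E : (Fin 8 → ℝ) ≃ₗ[ℝ] X := LinearEquiv.ofInjective _ (emb_injective ε)
  have hE : ∀ x, ‖E x‖ = ‖emb 8 ε x‖ := fun x => rfl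
  refine ⟨X, inferInstance, inferInstance, ?_, ?_⟩
  · rw [← E.finrank_eq]; simp
  have hpos : (0 : ℝ) < 2 + ε := by linarith
  have h1 : gamma X ≤ 2 / (2 + ε) * (1 + ε) := by
    refine csInf_le ⟨0, fun r hr => hr.1.le⟩ ⟨by positivity,
      (fun p => E ((2 / (2 + ε)) • p)) '' centres, ?_, ?_⟩
    · intro y
      obtain ⟨x, rfl⟩ := E.surjective y
      obtain ⟨p, hp, hxp⟩ := centres_cover (((2 + ε) / 2) • x)
      refine ⟨_, ⟨p, hp, rfl⟩, ?_⟩
      have h2 : x - (2 / (2 + ε)) • p = (2 / (2 + ε)) • (((2 + ε) / 2) • x - p) := by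
        rw [smul_sub, smul_smul, show 2 / (2 + ε) * ((2 + ε) / 2) = 1 by field_simp, one_smul]
      rw [← map_sub, h2, map_smul, norm_smul, Real.norm_of_nonneg (by positivity), hE]
      refine mul_le_mul_of_nonneg_left ((emb_le hε.le _).trans ?_) (by positivity)
      nlinarith
    · rintro _ ⟨p, hp, rfl⟩ _ ⟨q, hq, rfl⟩ hne
      have hpq : p ≠ q := fun h => hne (by rw [h])
      have h2 : 2 + ε ≤ ‖emb 8 ε (p - q)‖ := by
        rcases centres_sep p hp q hq hpq with ⟨i, hi⟩ | ⟨i, j, hij, hi, hj⟩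
        · have := abs_le_emb ε (p - q) i
          rw [Pi.sub_apply] at this
          linarith
        · have := pair_le_emb hε.le (p - q) hij
          rw [Pi.sub_apply, Pi.sub_apply] at this
          nlinarith
      simp only
      rw [← map_sub, ← smul_sub, map_smul, norm_smul, Real.norm_of_nonneg (by positivity), hE]
      calc (2 : ℝ) = 2 / (2 + ε) * (2 + ε) := by field_simp
        _ ≤ _ := mul_le_mul_of_nonneg_left h2 (by positivity)
  have h2 : 1 + ε / 2 ≤ gammaStar X := by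
    refine le_csInf ?_ ?_
    · let Λ : AddSubgroup (Fin 8 → ℝ) :=
        { carrier := {y | ∀ j, ∃ k : ℤ, y j = 2 * k}
          zero_mem' := fun j => ⟨0, by simp⟩
          add_mem' := by
            intro a b ha hb j
            obtain ⟨k, hk⟩ := ha j
            obtain ⟨k', hk'⟩ := hb j
            exact ⟨k + k', by simp [hk, hk', mul_add]⟩
          neg_mem' := by
            intro a ha j
            obtain ⟨k, hk⟩ := ha j
            exact ⟨-k, by simp [hk]⟩ }
      refine ⟨1 + ε, by positivity, Λ.map E.toLinearMap.toAddMonoidHom, ?_, ?_⟩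
      · intro y
        obtain ⟨x, rfl⟩ := E.surjective y
        refine ⟨_, ⟨fun j => 2 * (round (x j / 2) : ℤ), fun j => ⟨_, rfl⟩, rfl⟩, ?_⟩
        change ‖E x - E _‖ ≤ _
        rw [← map_sub, hE]
        refine (emb_le hε.le _).trans ?_
        have h3 : ‖x - fun j => (2 : ℝ) * (round (x j / 2) : ℤ)‖ ≤ 1 := by
          rw [pi_norm_le_iff_of_nonneg zero_le_one]
          intro j
          have := abs_le.1 (abs_sub_round (x j / 2))
          rw [Pi.sub_apply, Real.norm_eq_abs, abs_le]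
          constructor <;> linarith [this.1, this.2]
        nlinarith
      · rintro _ ⟨p, hp, rfl⟩ _ ⟨q, hq, rfl⟩ hne
        have hpq : p ≠ q := fun h => hne (by rw [h])
        obtain ⟨i, hi⟩ := Function.ne_iff.1 hpq
        change 2 ≤ ‖E p - E q‖
        rw [← map_sub, hE]
        refine le_trans ?_ (abs_le_emb ε _ i)
        obtain ⟨k, hk⟩ := hp i
        obtain ⟨k', hk'⟩ := hq i
        have h3 : k ≠ k' := fun h => hi (by rw [hk, hk', h])
        have h4 : (1 : ℝ) ≤ |(k : ℝ) - k'| := by exact_mod_cast Int.one_le_abs (sub_ne_zero.2 h3)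
        rw [Pi.sub_apply, hk, hk', ← mul_sub, abs_mul, abs_two]
        linarith
    · rintro r ⟨-, P, hd, hs⟩
      by_contra hlt
      push Not at hlt
      refine hno (P.comap E.toLinearMap.toAddMonoidHom) ?_ ?_
      · intro l hl hl0
        have := hs (E l) hl 0 P.zero_mem (by simpa using hl0)
        rwa [sub_zero] at this
      · intro x
        obtain ⟨p, hp, hxp⟩ := hd (E x)
        obtain ⟨l, rfl⟩ := E.surjective p
        refine ⟨l, hp, ?_⟩
        rw [← map_sub, hE] at hxp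
        linarith
  refine lt_of_le_of_lt h1 (lt_of_lt_of_le ?_ h2)
  rw [div_mul_eq_mul_div, div_lt_iff₀ hpos]
  nlinarith

end Pool.Agent.H477Z.Kel
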